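import Mathlib

set_option autoImplicit false

/-! Two growth lemmas of real analysis (HG-ANALYSIS): exponential growth rates of sequences
satisfying an approximate linear recursion. -/

namespace Pool.Agent.H85.HG

open Filter Topology

lemma tendsto_const_root {M : ℝ} (hM : 0 < M) :
    Tendsto (fun n : ℕ => M ^ ((n : ℝ)⁻¹)) atTop (𝓝 1) := by
  have h := (Real.continuous_const_rpow hM.ne').tendsto 0
  have h2 : Tendsto (fun n : ℕ => ((n : ℝ)⁻¹)) atTop (𝓝 0) := tendsto_inv_atTop_nhds_zero_nat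
  have h3 := h.comp h2
  rw [Real.rpow_zero] at h3
  exact h3

lemma root_eq {M θ : ℝ} (hM : 0 < M) (hθ : 0 < θ) {n : ℕ} (hn : 1 ≤ n) :
    (M * θ ^ n) ^ ((n : ℝ)⁻¹) = M ^ ((n : ℝ)⁻¹) * θ := by
  rw [Real.mul_rpow hM.le (pow_nonneg hθ.le n), Real.pow_rpow_inv_natCast hθ.le (by omega)]

/-- exponential growth rate from upper and lower bounds -/
lemma tendsto_root {u : ℕ → ℝ} {σ : ℝ} (hσ : 1 ≤ σ) (hu : ∀ n, 1 ≤ u n)
    (hup : ∀ θ, σ < θ → ∃ M : ℝ, ∀ᶠ n : ℕ in atTop, u n ≤ M * θ ^ n)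
    (hlo : ∀ θ, 1 ≤ θ → θ < σ → ∃ m : ℝ, 0 < m ∧ ∀ᶠ n : ℕ in atTop, m * θ ^ n ≤ u n) :
    Tendsto (fun n : ℕ => (u n) ^ ((n : ℝ)⁻¹)) atTop (𝓝 σ) := by
  rw [tendsto_order]
  constructor
  · intro x hx
    rcases lt_or_ge x 1 with h1 | h1
    · refine Eventually.of_forall fun n => h1.trans_le ?_
      exact Real.one_le_rpow (hu n) (by positivity)
    · obtain ⟨m, hm, hlo'⟩ := hlo ((x + σ) / 2) (by linarith) (by linarith)
      have hθ : 0 < (x + σ) / 2 := by linarith
      have ht : Tendsto (fun n : ℕ => m ^ ((n : ℝ)⁻¹) * ((x + σ) / 2)) atTop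
          (𝓝 ((x + σ) / 2)) := by
        simpa using (tendsto_const_root hm).mul_const ((x + σ) / 2)
      filter_upwards [hlo', ht.eventually_const_lt (by linarith : x < (x + σ) / 2),
        eventually_ge_atTop 1] with n h2 h3 h4
      rw [← root_eq hm hθ h4] at h3
      exact h3.trans_le (Real.rpow_le_rpow (by positivity) h2 (by positivity))
  · intro x hx
    obtain ⟨M, hM⟩ := hup ((x + σ) / 2) (by linarith)
    have hθ : 0 < (x + σ) / 2 := by linarith
    have hM1 : 0 < max M 1 := lt_max_of_lt_right one_pos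
    have ht : Tendsto (fun n : ℕ => (max M 1) ^ ((n : ℝ)⁻¹) * ((x + σ) / 2)) atTop
        (𝓝 ((x + σ) / 2)) := by
      simpa using (tendsto_const_root hM1).mul_const ((x + σ) / 2)
    filter_upwards [hM, ht.eventually_lt_const (by linarith : (x + σ) / 2 < x),
      eventually_ge_atTop 1] with n h2 h3 h4
    rw [← root_eq hM1 hθ h4] at h3
    refine lt_of_le_of_lt (Real.rpow_le_rpow (by linarith [hu n]) ?_ (by positivity)) h3
    exact h2.trans (mul_le_mul_of_nonneg_right (le_max_left _ _) (by positivity))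

lemma root_ge_one {B : ℕ → ℝ} {ρ : ℝ} (hB : ∀ n, 1 ≤ B n)
    (hρ : Tendsto (fun n : ℕ => (B n) ^ ((n : ℝ)⁻¹)) atTop (𝓝 ρ)) : 1 ≤ ρ :=
  ge_of_tendsto' hρ fun n => Real.one_le_rpow (hB n) (by positivity)

lemma root_upper {B : ℕ → ℝ} {ρ : ℝ} (hB : ∀ n, 1 ≤ B n)
    (hρ : Tendsto (fun n : ℕ => (B n) ^ ((n : ℝ)⁻¹)) atTop (𝓝 ρ)) {θ : ℝ} (hθ : ρ < θ) :
    ∃ M : ℝ, 0 < M ∧ ∀ n : ℕ, B n ≤ M * θ ^ n := by
  have h1 := root_ge_one hB hρ
  have hθ0 : 0 < θ := by linarith
  have hev : ∀ᶠ n : ℕ in atTop, B n ≤ θ ^ n := by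
    filter_upwards [hρ.eventually_lt_const hθ, eventually_ge_atTop 1] with n h2 h3
    have hB0 : 0 ≤ B n := by linarith [hB n]
    have : ((B n) ^ ((n : ℝ)⁻¹)) ^ n ≤ θ ^ n :=
      pow_le_pow_left₀ (Real.rpow_nonneg hB0 _) h2.le n
    rwa [Real.rpow_inv_natCast_pow hB0 (by omega)] at this
  obtain ⟨N, hN⟩ := eventually_atTop.1 hev
  refine ⟨1 + ∑ n ∈ Finset.range N, B n / θ ^ n, ?_, fun n => ?_⟩
  · have : 0 ≤ ∑ n ∈ Finset.range N, B n / θ ^ n :=
      Finset.sum_nonneg fun i _ => div_nonneg (by linarith [hB i]) (by positivity)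
    linarith
  · have hs : 0 ≤ ∑ n ∈ Finset.range N, B n / θ ^ n :=
      Finset.sum_nonneg fun i _ => div_nonneg (by linarith [hB i]) (by positivity)
    have hp : 0 < θ ^ n := by positivity
    rcases lt_or_ge n N with h | h
    · have h2 : B n / θ ^ n ≤ ∑ n ∈ Finset.range N, B n / θ ^ n :=
        Finset.single_le_sum (f := fun n => B n / θ ^ n)
          (fun i _ => div_nonneg (by linarith [hB i]) (by positivity)) (Finset.mem_range.2 h)
      rw [div_le_iff₀ hp] at h2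
      nlinarith
    · have := hN n h
      nlinarith

lemma root_lower {B : ℕ → ℝ} {ρ : ℝ} (hB : ∀ n, 1 ≤ B n)
    (hρ : Tendsto (fun n : ℕ => (B n) ^ ((n : ℝ)⁻¹)) atTop (𝓝 ρ)) {θ : ℝ} (h0 : 1 ≤ θ)
    (hθ : θ < ρ) : ∀ᶠ n : ℕ in atTop, θ ^ n ≤ B n := by
  filter_upwards [hρ.eventually_const_lt hθ, eventually_ge_atTop 1] with n h2 h3
  have hB0 : 0 ≤ B n := by linarith [hB n]
  have : θ ^ n ≤ ((B n) ^ ((n : ℝ)⁻¹)) ^ n := pow_le_pow_left₀ (by linarith) h2.le n
  rwa [Real.rpow_inv_natCast_pow hB0 (by omega)] at this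

/-- a recursion with ratio less than `θ` and error `O(θ ^ n)` -/
lemma growth_upper {a : ℕ → ℝ} {d K θ : ℝ} {n₀ : ℕ} (hd : 0 ≤ d) (hdθ : d < θ) (hK : 0 ≤ K)
    (h1 : ∀ n ≥ n₀, a (n + 1) ≤ d * a n + K * θ ^ n) :
    ∃ A : ℝ, 0 ≤ A ∧ ∀ n ≥ n₀, a n ≤ A * θ ^ n := by
  have hθ : 0 < θ := lt_of_le_of_lt hd hdθ
  have hδ : 0 < θ - d := by linarith
  refine ⟨max (a n₀ / θ ^ n₀) (K / (θ - d)), le_max_of_le_right (by positivity), ?_⟩
  set A := max (a n₀ / θ ^ n₀) (K / (θ - d)) with hA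
  have hA1 : a n₀ ≤ A * θ ^ n₀ := by
    rw [← div_le_iff₀ (by positivity)]
    exact le_max_left _ _
  have hA2 : K ≤ A * (θ - d) := by
    rw [← div_le_iff₀ hδ]
    exact le_max_right _ _
  intro n hn
  induction n, hn using Nat.le_induction with
  | base => exact hA1
  | succ n hn ih =>
    have hp : 0 < θ ^ n := by positivity
    calc a (n + 1) ≤ d * a n + K * θ ^ n := h1 n hn
      _ ≤ d * (A * θ ^ n) + A * (θ - d) * θ ^ n :=
        add_le_add (mul_le_mul_of_nonneg_left ih hd) (mul_le_mul_of_nonneg_right hA2 hp.le)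
      _ = A * θ ^ (n + 1) := by ring

theorem growth_limit (a b t : ℕ → ℝ) (d C : ℝ) (n₀ : ℕ) (hd : 1 ≤ d) (hC : 0 ≤ C)
    (ha : ∀ n, 0 ≤ a n) (hb : ∀ n, 0 ≤ b n)
    (h1 : ∀ n ≥ n₀, a (n + 1) ≤ d * a n + C * (1 + b n))
    (h2 : ∀ n ≥ n₀, d * a n ≤ a (n + 1) + C * (1 + b n))
    (ht1 : ∀ n, a n ≤ t n) (ht2 : ∀ n, b n ≤ t n) (ht3 : ∀ n, t n ≤ a n + b n + C)
    (ρ : ℝ) (hρ : Tendsto (fun n : ℕ => (max (b n) 1) ^ ((n : ℝ)⁻¹)) atTop (𝓝 ρ)) :
    Tendsto (fun n : ℕ => (max (t n) 1) ^ ((n : ℝ)⁻¹)) atTop (𝓝 ρ) ∨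
      Tendsto (fun n : ℕ => (max (t n) 1) ^ ((n : ℝ)⁻¹)) atTop (𝓝 d) := by
  have hB : ∀ n, 1 ≤ max (b n) 1 := fun n => le_max_right _ _
  have hT : ∀ n, 1 ≤ max (t n) 1 := fun n => le_max_right _ _
  have hρ1 : 1 ≤ ρ := root_ge_one hB hρ
  have hd0 : 0 < d := by linarith
  -- lower bound by `b`
  have hlo : ∀ θ, 1 ≤ θ → θ < ρ → ∃ m : ℝ, 0 < m ∧
      ∀ᶠ n : ℕ in atTop, m * θ ^ n ≤ max (t n) 1 := by
    intro θ h3 h4
    refine ⟨1, one_pos, ?_⟩
    filter_upwards [root_lower hB hρ h3 h4] with n h5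
    rw [one_mul]
    exact h5.trans (max_le_max (ht2 n) le_rfl)
  -- from a bound for `a` to a bound for `t`
  have hup_of : ∀ θ, ρ < θ → (∃ A : ℝ, ∀ᶠ n : ℕ in atTop, a n ≤ A * θ ^ n) →
      ∃ M : ℝ, ∀ᶠ n : ℕ in atTop, max (t n) 1 ≤ M * θ ^ n := by
    rintro θ h3 ⟨A, hA⟩
    obtain ⟨M, hM0, hM⟩ := root_upper hB hρ h3
    have hθ1 : 1 ≤ θ := by linarith
    refine ⟨A + M + C + 1, ?_⟩
    filter_upwards [hA] with n h5
    have h6 : 1 ≤ θ ^ n := one_le_pow₀ hθ1
    have h7 := (le_max_left (b n) 1).trans (hM n)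
    have h8 : A * θ ^ n + M * θ ^ n + C * θ ^ n + 1 * θ ^ n = (A + M + C + 1) * θ ^ n := by ring
    have h9 : 0 ≤ A * θ ^ n := (ha n).trans h5
    have h10 : 0 ≤ M * θ ^ n := by positivity
    have h11 : C ≤ C * θ ^ n := le_mul_of_one_le_right hC h6
    rw [← h8]
    refine max_le ?_ ?_
    · have := ht3 n
      linarith
    · nlinarith
  -- bound for the error term
  have herr : ∀ θ, ρ < θ → ∃ K : ℝ, 0 ≤ K ∧ ∀ n : ℕ, C * (1 + b n) ≤ K * θ ^ n := by
    intro θ h3
    obtain ⟨M, hM0, hM⟩ := root_upper hB hρ h3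
    refine ⟨2 * C * M, by positivity, fun n => ?_⟩
    have h5 : 1 + b n ≤ 2 * max (b n) 1 := by
      linarith [le_max_left (b n) 1, le_max_right (b n) 1]
    calc C * (1 + b n) ≤ C * (2 * (M * θ ^ n)) := by
          refine mul_le_mul_of_nonneg_left ?_ hC
          linarith [hM n]
      _ = 2 * C * M * θ ^ n := by ring
  -- general upper bound
  have hgen : ∀ θ, ρ < θ → d < θ → ∃ M : ℝ, ∀ᶠ n : ℕ in atTop, max (t n) 1 ≤ M * θ ^ n := by
    intro θ h3 h4
    obtain ⟨K, hK0, hK⟩ := herr θ h3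
    obtain ⟨A, -, hA⟩ := growth_upper (a := a) (n₀ := n₀) hd0.le h4 hK0
      (fun n hn => (h1 n hn).trans (by linarith [hK n]))
    exact hup_of θ h3 ⟨A, eventually_atTop.2 ⟨n₀, hA⟩⟩
  rcases le_or_gt d ρ with hcase | hcase
  · left
    exact tendsto_root hρ1 hT (fun θ hθ => hgen θ hθ (lt_of_le_of_lt hcase hθ)) hlo
  · -- `ρ < d`
    set c : ℕ → ℝ := fun n => a (n + n₀) / d ^ (n + n₀) with hc
    have hstep : ∀ θ, ρ < θ → θ < d → ∃ K : ℝ, 0 ≤ K ∧
        ∀ n, dist (c n) (c (n + 1)) ≤ K * (θ / d) ^ n := by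
      intro θ h3 h4
      obtain ⟨K, hK0, hK⟩ := herr θ h3
      have hθ0 : 0 < θ := by linarith
      refine ⟨K * θ ^ n₀ / d ^ (n₀ + 1), by positivity, fun n => ?_⟩
      have hn : n₀ ≤ n + n₀ := by omega
      have e1 := h1 (n + n₀) hn
      have e2 := h2 (n + n₀) hn
      have e3 := hK (n + n₀)
      have hp : 0 < d ^ (n + n₀ + 1) := by positivity
      have e4 : c n - c (n + 1) = (d * a (n + n₀) - a (n + n₀ + 1)) / d ^ (n + n₀ + 1) := by
        simp only [hc]
        have : n + 1 + n₀ = n + n₀ + 1 := by ring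
        rw [this, sub_div]
        congr 1
        rw [pow_succ]
        field_simp
      rw [Real.dist_eq, e4, abs_div, abs_of_pos hp, div_le_iff₀ hp]
      have e5 : K * θ ^ n₀ / d ^ (n₀ + 1) * (θ / d) ^ n * d ^ (n + n₀ + 1) =
          K * θ ^ (n + n₀) := by
        rw [div_pow]
        field_simp
        ring
      rw [e5, abs_le]
      constructor <;> linarith
    obtain ⟨K0, hK00, hK0⟩ := hstep ((ρ + d) / 2) (by linarith) (by linarith)
    have hr0 : (ρ + d) / 2 / d < 1 := by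
      rw [div_lt_one hd0]
      linarith
    obtain ⟨L, hL⟩ := cauchySeq_tendsto_of_complete (cauchySeq_of_le_geometric _ K0 hr0 hK0)
    have hL0 : 0 ≤ L := ge_of_tendsto' hL fun n => div_nonneg (ha _) (by positivity)
    rcases hL0.eq_or_lt with hz | hpos
    · -- `L = 0`: rate `ρ`
      left
      refine tendsto_root hρ1 hT (fun θ hθ => ?_) hlo
      rcases lt_or_ge θ d with h4 | h4
      · obtain ⟨K, hK0, hK⟩ := hstep θ hθ h4
        have hr : θ / d < 1 := by
          rw [div_lt_one hd0]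
          exact h4
        have hθ0 : 0 < θ := by linarith
        refine hup_of θ hθ ⟨K / (1 - θ / d) * d ^ n₀ / θ ^ n₀, ?_⟩
        refine eventually_atTop.2 ⟨n₀, fun n hn => ?_⟩
        obtain ⟨k, rfl⟩ : ∃ k, n = k + n₀ := ⟨n - n₀, by omega⟩
        have h5 := dist_le_of_le_geometric_of_tendsto _ K hr hK hL k
        rw [← hz, Real.dist_eq, sub_zero] at h5
        have h6 := (le_abs_self _).trans h5
        simp only [hc] at h6
        rw [div_le_iff₀ (by positivity)] at h6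
        refine h6.trans (le_of_eq ?_)
        have : 1 - θ / d ≠ 0 := by linarith
        rw [div_pow, pow_add, pow_add]
        field_simp
      · obtain ⟨M, hM⟩ : ∃ M : ℝ, ∀ᶠ n : ℕ in atTop,
            max (t n) 1 ≤ M * ((ρ + d) / 2) ^ n := by
          have hθ0 : 0 < (ρ + d) / 2 := by linarith
          refine hup_of ((ρ + d) / 2) (by linarith)
            ⟨K0 / (1 - (ρ + d) / 2 / d) * d ^ n₀ / ((ρ + d) / 2) ^ n₀, ?_⟩
          refine eventually_atTop.2 ⟨n₀, fun n hn => ?_⟩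
          obtain ⟨k, rfl⟩ : ∃ k, n = k + n₀ := ⟨n - n₀, by omega⟩
          have h5 := dist_le_of_le_geometric_of_tendsto _ K0 hr0 hK0 hL k
          rw [← hz, Real.dist_eq, sub_zero] at h5
          have h6 := (le_abs_self _).trans h5
          simp only [hc] at h6
          rw [div_le_iff₀ (by positivity)] at h6
          refine h6.trans (le_of_eq ?_)
          have : 1 - (ρ + d) / 2 / d ≠ 0 := by linarith
          set η := (ρ + d) / 2
          rw [div_pow, pow_add, pow_add]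
          field_simp
        refine ⟨max M 0, ?_⟩
        filter_upwards [hM] with n h5
        have h6 : ((ρ + d) / 2) ^ n ≤ θ ^ n := pow_le_pow_left₀ (by linarith) (by linarith) n
        calc max (t n) 1 ≤ M * ((ρ + d) / 2) ^ n := h5
          _ ≤ max M 0 * ((ρ + d) / 2) ^ n :=
            mul_le_mul_of_nonneg_right (le_max_left _ _) (pow_nonneg (by linarith) n)
          _ ≤ max M 0 * θ ^ n := mul_le_mul_of_nonneg_left h6 (le_max_right _ _)
    · -- `L > 0`: rate `d`
      right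
      refine tendsto_root hd hT (fun θ hθ => hgen θ (by linarith) hθ) ?_
      intro θ h3 h4
      refine ⟨L / 2, by positivity, ?_⟩
      have h5 := hL.eventually_const_lt (by linarith : L / 2 < L)
      obtain ⟨N, hN⟩ := eventually_atTop.1 h5
      refine eventually_atTop.2 ⟨N + n₀, fun n hn => ?_⟩
      obtain ⟨k, rfl⟩ : ∃ k, n = k + n₀ := ⟨n - n₀, by omega⟩
      have h6 := hN k (by omega)
      simp only [hc] at h6
      rw [lt_div_iff₀ (by positivity)] at h6
      calc L / 2 * θ ^ (k + n₀) ≤ L / 2 * d ^ (k + n₀) :=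
            mul_le_mul_of_nonneg_left (pow_le_pow_left₀ (by linarith) h4.le _) (by linarith)
        _ ≤ a (k + n₀) := h6.le
        _ ≤ t (k + n₀) := ht1 _
        _ ≤ max (t (k + n₀)) 1 := le_max_left _ _

/-- growth rate of `t` from that of a shift of `a` -/
lemma rate_of_shift {a t : ℕ → ℝ} {C σ : ℝ} {n₀ : ℕ} (hC : 0 ≤ C) (hσ : 1 ≤ σ)
    (ha : ∀ n, 0 ≤ a n) (ht1 : ∀ n, a n ≤ t n) (ht2 : ∀ n, t n ≤ a n + C)
    (hup : ∀ θ, σ < θ → ∃ M : ℝ, ∀ᶠ n : ℕ in atTop, a (n + n₀) ≤ M * θ ^ n)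
    (hlo : ∀ θ, 1 ≤ θ → θ < σ → ∃ m : ℝ, 0 < m ∧ ∀ᶠ n : ℕ in atTop, m * θ ^ n ≤ a (n + n₀)) :
    Tendsto (fun n : ℕ => (max (t n) 1) ^ ((n : ℝ)⁻¹)) atTop (𝓝 σ) := by
  refine tendsto_root hσ (fun n => le_max_right _ _) (fun θ hθ => ?_) (fun θ h1 h2 => ?_)
  · obtain ⟨M, hM⟩ := hup θ hθ
    obtain ⟨N, hN⟩ := eventually_atTop.1 hM
    have hθ1 : 1 ≤ θ := by linarith
    refine ⟨max M 0 + C + 1, eventually_atTop.2 ⟨N + n₀, fun n hn => ?_⟩⟩
    obtain ⟨k, rfl⟩ : ∃ k, n = k + n₀ := ⟨n - n₀, by omega⟩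
    have h3 := hN k (by omega)
    have h4 : 1 ≤ θ ^ (k + n₀) := one_le_pow₀ hθ1
    have h5 : θ ^ k ≤ θ ^ (k + n₀) := pow_le_pow_right₀ hθ1 (by omega)
    have h6 : a (k + n₀) ≤ max M 0 * θ ^ (k + n₀) := by
      calc a (k + n₀) ≤ M * θ ^ k := h3
        _ ≤ max M 0 * θ ^ k := mul_le_mul_of_nonneg_right (le_max_left _ _) (by positivity)
        _ ≤ max M 0 * θ ^ (k + n₀) := mul_le_mul_of_nonneg_left h5 (le_max_right _ _)
    have h7 : C ≤ C * θ ^ (k + n₀) := le_mul_of_one_le_right hC h4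
    have h8 := ht2 (k + n₀)
    have h9 : 0 ≤ max M 0 * θ ^ (k + n₀) := (ha _).trans h6
    have h10 : (max M 0 + C + 1) * θ ^ (k + n₀) =
      max M 0 * θ ^ (k + n₀) + C * θ ^ (k + n₀) + θ ^ (k + n₀) := by ring
    rw [h10]
    exact max_le (by linarith) (by linarith [hC.trans h7])
  · obtain ⟨m, hm, hlo'⟩ := hlo θ h1 h2
    obtain ⟨N, hN⟩ := eventually_atTop.1 hlo'
    have hθ0 : 0 < θ := by linarith
    refine ⟨m / θ ^ n₀, by positivity, eventually_atTop.2 ⟨N + n₀, fun n hn => ?_⟩⟩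
    obtain ⟨k, rfl⟩ : ∃ k, n = k + n₀ := ⟨n - n₀, by omega⟩
    have h3 := hN k (by omega)
    have h4 : m / θ ^ n₀ * θ ^ (k + n₀) = m * θ ^ k := by
      rw [pow_add]
      field_simp
    rw [h4]
    exact h3.trans ((ht1 _).trans (le_max_left _ _))

theorem growth_periodic (a t : ℕ → ℝ) (e : ℕ → ℕ) (p n₀ : ℕ) (C : ℝ) (hp : 0 < p) (hC : 0 ≤ C)
    (he : ∀ n ≥ n₀, e (n + p) = e n) (ha : ∀ n, 0 ≤ a n)
    (h1 : ∀ n ≥ n₀, a (n + 1) ≤ e n * a n + C) (h2 : ∀ n ≥ n₀, e n * a n ≤ a (n + 1) + C)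
    (ht1 : ∀ n, a n ≤ t n) (ht2 : ∀ n, t n ≤ a n + C) :
    ∃ ρ : ℝ, Tendsto (fun n : ℕ => (max (t n) 1) ^ ((n : ℝ)⁻¹)) atTop (𝓝 ρ) := by
  set A : ℕ → ℝ := fun n => a (n + n₀) with hA
  set E : ℕ → ℕ := fun n => e (n + n₀) with hE
  have hA0 : ∀ n, 0 ≤ A n := fun n => ha _
  have hEp : ∀ n, E (n + p) = E n := by
    intro n
    have := he (n + n₀) (by omega)
    simp only [hE]
    rw [← this]
    congr 1
    omega
  have hA1 : ∀ n, A (n + 1) ≤ E n * A n + C := by
    intro n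
    have := h1 (n + n₀) (by omega)
    simp only [hA, hE]
    rwa [show n + 1 + n₀ = n + n₀ + 1 by ring]
  have hA2 : ∀ n, E n * A n ≤ A (n + 1) + C := by
    intro n
    have := h2 (n + n₀) (by omega)
    simp only [hA, hE]
    rwa [show n + 1 + n₀ = n + n₀ + 1 by ring]
  have hEk : ∀ n k, E (n + k * p) = E n := by
    intro n k
    induction k with
    | zero => simp
    | succ k ih => rw [Nat.succ_mul, ← Nat.add_assoc, hEp, ih]
  by_cases hz : ∃ Z, E Z = 0
  · -- a zero multiplier: everything is bounded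
    obtain ⟨Z, hZ⟩ := hz
    refine ⟨1, rate_of_shift (n₀ := n₀) hC le_rfl ha ht1 ht2 (fun θ hθ => ?_)
      (fun θ h3 h4 => absurd h3 (not_le.2 h4))⟩
    set M : ℝ := 1 + ∑ i ∈ Finset.range p, (E i : ℝ) with hM
    have hEM : ∀ n, (E n : ℝ) ≤ M := by
      intro n
      have h3 : E n = E (n % p) := by
        conv_lhs => rw [← Nat.mod_add_div n p, mul_comm]
        exact hEk _ _
      rw [h3]
      have h4 : (E (n % p) : ℝ) ≤ ∑ i ∈ Finset.range p, (E i : ℝ) :=
        Finset.single_le_sum (f := fun i => (E i : ℝ)) (fun i _ => Nat.cast_nonneg _)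
          (Finset.mem_range.2 (Nat.mod_lt n hp))
      linarith
    have hM0 : 0 ≤ M := (Nat.cast_nonneg (E 0)).trans (hEM 0)
    set Q : ℕ → ℝ := fun j => Nat.rec C (fun _ q => M * q + C) j with hQ
    have hQs : ∀ j, Q (j + 1) = M * Q j + C := fun j => rfl
    have hQ0 : ∀ j, 0 ≤ Q j := by
      intro j
      induction j with
      | zero => exact hC
      | succ j ih =>
        rw [hQs]
        positivity
    have hAQ : ∀ k j, A (Z + k * p + 1 + j) ≤ Q j := by
      intro k j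
      induction j with
      | zero =>
        have h3 := hA1 (Z + k * p)
        rw [hEk, hZ] at h3
        simpa [hQ] using h3
      | succ j ih =>
        rw [hQs, ← Nat.add_assoc]
        refine (hA1 _).trans ?_
        have h3 : (E (Z + k * p + 1 + j) : ℝ) * A (Z + k * p + 1 + j) ≤ M * Q j :=
          mul_le_mul (hEM _) ih (hA0 _) hM0
        linarith
    refine ⟨∑ j ∈ Finset.range p, Q j, eventually_atTop.2 ⟨Z + 1, fun n hn => ?_⟩⟩
    obtain ⟨l, rfl⟩ : ∃ l, n = Z + 1 + l := ⟨n - (Z + 1), by omega⟩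
    have h3 : Z + 1 + l = Z + (l / p) * p + 1 + l % p := by
      have := Nat.mod_add_div l p
      rw [mul_comm] at this
      omega
    have h4 : A (Z + 1 + l) ≤ Q (l % p) := by
      rw [h3]
      exact hAQ _ _
    have h5 : Q (l % p) ≤ ∑ j ∈ Finset.range p, Q j :=
      Finset.single_le_sum (f := Q) (fun i _ => hQ0 i) (Finset.mem_range.2 (Nat.mod_lt l hp))
    have h6 : (1 : ℝ) ≤ θ ^ (Z + 1 + l) := one_le_pow₀ hθ.le
    have h7 : 0 ≤ ∑ j ∈ Finset.range p, Q j := Finset.sum_nonneg fun i _ => hQ0 i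
    exact (h4.trans h5).trans (le_mul_of_one_le_right h7 h6)
  · push Not at hz
    have hE1 : ∀ n, (1 : ℝ) ≤ E n := fun n => by
      exact_mod_cast Nat.one_le_iff_ne_zero.2 (hz n)
    set P : ℕ → ℝ := fun n => ∏ i ∈ Finset.range n, (E i : ℝ) with hP
    have hPs : ∀ n, P (n + 1) = P n * E n := fun n => Finset.prod_range_succ _ _
    have hP1 : ∀ n, 1 ≤ P n := by
      intro n
      induction n with
      | zero => simp [hP]
      | succ n ih =>
        rw [hPs]
        exact one_le_mul_of_one_le_of_one_le ih (hE1 n)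
    have hPmono : Monotone P := by
      refine monotone_nat_of_le_succ fun n => ?_
      rw [hPs]
      exact le_mul_of_one_le_right (by linarith [hP1 n]) (hE1 n)
    set D : ℝ := P p with hD
    have hD1 : 1 ≤ D := hP1 p
    have hD0 : 0 < D := by linarith
    have hPp : ∀ n, P (n + p) = P n * D := by
      intro n
      induction n with
      | zero =>
        have : P 0 = 1 := by simp [hP]
        rw [this, one_mul, Nat.zero_add]
      | succ n ih =>
        rw [show n + 1 + p = n + p + 1 by ring, hPs, ih, hEp, hPs]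
        ring
    have hPk : ∀ n k, P (n + k * p) = P n * D ^ k := by
      intro n k
      induction k with
      | zero => simp
      | succ k ih => rw [Nat.succ_mul, ← Nat.add_assoc, hPp, ih, pow_succ, mul_assoc]
    set lam : ℝ := D ^ ((p : ℝ)⁻¹) with hlam
    have hlam1 : 1 ≤ lam := Real.one_le_rpow hD1 (by positivity)
    have hlam0 : 0 < lam := by linarith
    have hlamp : lam ^ p = D := Real.rpow_inv_natCast_pow hD0.le hp.ne'
    have hbd : ∀ n, lam ^ n / D ≤ P n ∧ P n ≤ D * lam ^ n := by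
      intro n
      have h3 : n = n % p + n / p * p := by
        have := Nat.mod_add_div n p
        rw [mul_comm] at this
        exact this.symm
      have h4 : P n = P (n % p) * D ^ (n / p) := by
        conv_lhs => rw [h3]
        exact hPk _ _
      have h5 : lam ^ n = lam ^ (n % p) * D ^ (n / p) := by
        conv_lhs => rw [h3]
        rw [pow_add, mul_comm (n / p) p, pow_mul, hlamp]
      have h6 : n % p ≤ p := (Nat.mod_lt n hp).le
      have h7 : P (n % p) ≤ D := hPmono h6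
      have h8 : lam ^ (n % p) ≤ D := by
        rw [← hlamp]
        exact pow_le_pow_right₀ hlam1 h6
      have h9 : 1 ≤ lam ^ (n % p) := one_le_pow₀ hlam1
      have h10 := hP1 (n % p)
      have h11 : 0 < D ^ (n / p) := by positivity
      rw [h4, h5]
      constructor
      · rw [div_le_iff₀ hD0]
        calc lam ^ (n % p) * D ^ (n / p) ≤ D * D ^ (n / p) :=
              mul_le_mul_of_nonneg_right h8 h11.le
          _ ≤ P (n % p) * (D * D ^ (n / p)) := le_mul_of_one_le_left (by positivity) h10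
          _ = P (n % p) * D ^ (n / p) * D := by ring
      · calc P (n % p) * D ^ (n / p) ≤ D * D ^ (n / p) :=
              mul_le_mul_of_nonneg_right h7 h11.le
          _ ≤ lam ^ (n % p) * (D * D ^ (n / p)) := le_mul_of_one_le_left (by positivity) h9
          _ = D * (lam ^ (n % p) * D ^ (n / p)) := by ring
    set c : ℕ → ℝ := fun n => A n / P n with hc
    have hPpos : ∀ n, 0 < P n := fun n => by linarith [hP1 n]
    have hc0 : ∀ n, 0 ≤ c n := fun n => div_nonneg (hA0 n) (hPpos n).le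
    have hcA : ∀ n, A n = c n * P n := fun n => by
      simp only [hc]
      rw [div_mul_cancel₀ _ (hPpos n).ne']
    have hcd : ∀ n, |c n - c (n + 1)| ≤ C / P (n + 1) := by
      intro n
      have h3 : c n - c (n + 1) = (E n * A n - A (n + 1)) / P (n + 1) := by
        simp only [hc]
        have hPn := (hPpos n).ne'
        have hEn : (E n : ℝ) ≠ 0 := by linarith [hE1 n]
        rw [hPs]
        field_simp
      rw [h3, abs_div, abs_of_pos (hPpos _)]
      refine div_le_div_of_nonneg_right ?_ (hPpos _).le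
      rw [abs_le]
      constructor <;> linarith [hA1 n, hA2 n]
    have hup : ∀ θ, lam < θ → ∃ M : ℝ, ∀ᶠ n : ℕ in atTop, A n ≤ M * θ ^ n := by
      intro θ hθ
      have hη : 1 < θ / lam := by rwa [one_lt_div hlam0]
      obtain ⟨K, hK0, hK⟩ := growth_upper (a := c) (d := 1) (K := C) (n₀ := 0) zero_le_one hη hC
        (fun n _ => by
          have h3 := (abs_le.1 (hcd n)).1
          have h4 : C / P (n + 1) ≤ C := div_le_self hC (hP1 _)
          have h5 : C ≤ C * (θ / lam) ^ n := le_mul_of_one_le_right hC (one_le_pow₀ hη.le)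
          linarith)
      refine ⟨K * D, Eventually.of_forall fun n => ?_⟩
      rw [hcA]
      calc c n * P n ≤ K * (θ / lam) ^ n * (D * lam ^ n) :=
            mul_le_mul (hK n (Nat.zero_le n)) (hbd n).2 (hPpos n).le (by positivity)
        _ = K * D * θ ^ n := by
            rw [div_pow]
            field_simp
    rcases hlam1.eq_or_lt with hl1 | hl1
    · -- all multipliers are one
      refine ⟨lam, rate_of_shift (n₀ := n₀) hC hlam1 ha ht1 ht2 hup
        (fun θ h3 h4 => absurd h3 (not_le.2 (by rw [hl1]; exact h4)))⟩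
    · have hr : lam⁻¹ < 1 := inv_lt_one_of_one_lt₀ hl1
      have hgeo : ∀ n, dist (c n) (c (n + 1)) ≤ C * D * (lam⁻¹) ^ n := by
        intro n
        rw [Real.dist_eq]
        refine (hcd n).trans ?_
        rw [div_le_iff₀ (hPpos _)]
        have h3 : lam ^ n ≤ P (n + 1) * D := by
          have h4 := (hbd (n + 1)).1
          rw [div_le_iff₀ hD0] at h4
          exact (pow_le_pow_right₀ hlam1 (Nat.le_succ n)).trans h4
        calc C = C * (lam⁻¹) ^ n * lam ^ n := by
              rw [mul_assoc, ← mul_pow, inv_mul_cancel₀ hlam0.ne', one_pow, mul_one]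
          _ ≤ C * (lam⁻¹) ^ n * (P (n + 1) * D) := mul_le_mul_of_nonneg_left h3 (by positivity)
          _ = C * D * (lam⁻¹) ^ n * P (n + 1) := by ring
      obtain ⟨L, hL⟩ := cauchySeq_tendsto_of_complete (cauchySeq_of_le_geometric _ (C * D) hr hgeo)
      have hL0 : 0 ≤ L := ge_of_tendsto' hL hc0
      rcases hL0.eq_or_lt with hz | hpos
      · refine ⟨1, rate_of_shift (n₀ := n₀) hC le_rfl ha ht1 ht2 (fun θ hθ => ?_)
          (fun θ h3 h4 => absurd h3 (not_le.2 h4))⟩
        refine ⟨C * D / (1 - lam⁻¹) * D, Eventually.of_forall fun n => ?_⟩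
        have h5 := dist_le_of_le_geometric_of_tendsto _ (C * D) hr hgeo hL n
        rw [← hz, Real.dist_eq, sub_zero] at h5
        have h6 := (le_abs_self _).trans h5
        have hr' : 0 < 1 - lam⁻¹ := by linarith
        have h7 : A n ≤ C * D / (1 - lam⁻¹) * D := by
          rw [hcA]
          calc c n * P n ≤ C * D * (lam⁻¹) ^ n / (1 - lam⁻¹) * (D * lam ^ n) :=
                mul_le_mul h6 (hbd n).2 (hPpos n).le (by positivity)
            _ = C * D / (1 - lam⁻¹) * D * ((lam⁻¹) ^ n * lam ^ n) := by ring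
            _ = C * D / (1 - lam⁻¹) * D := by
                rw [← mul_pow, inv_mul_cancel₀ hlam0.ne', one_pow, mul_one]
        exact h7.trans (le_mul_of_one_le_right (by positivity) (one_le_pow₀ hθ.le))
      · refine ⟨lam, rate_of_shift (n₀ := n₀) hC hlam1 ha ht1 ht2 hup (fun θ h3 h4 => ?_)⟩
        refine ⟨L / 2 / D, by positivity, ?_⟩
        filter_upwards [hL.eventually_const_lt (by linarith : L / 2 < L)] with n h5
        have h6 : A n = c n * P n := hcA n
        change L / 2 / D * θ ^ n ≤ A n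
        rw [h6]
        calc L / 2 / D * θ ^ n ≤ L / 2 / D * lam ^ n :=
              mul_le_mul_of_nonneg_left (pow_le_pow_left₀ (by linarith) h4.le n) (by positivity)
          _ = L / 2 * (lam ^ n / D) := by ring
          _ ≤ c n * P n := mul_le_mul h5.le (hbd n).1 (by positivity) (hc0 n)

end Pool.Agent.H85.HG
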