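import Mathlib

/-!
Heights of the values of forms in `y` with coefficients polynomial in `x`:
`|h(P(x; y)) - d h(y)| ≤ C + E h(1, x)` when the forms have no common zero over `K(x)` and the
resultant-like polynomial `ρ` does not vanish at `x`.
-/

set_option autoImplicit false

open Height Height.AdmissibleAbsValues MvPolynomial

namespace Pool.Agent.H85.HG

variable {K : Type*} [Field K] [AdmissibleAbsValues K]

/-- The (logarithmic) Weil height of the affine point `x`, that is of `(1 : x)`. -/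
noncomputable def affHeight {κ : Type*} (x : κ → K) : ℝ :=
  logHeight (fun o : Option κ => o.elim (1 : K) x)

theorem affHeight_nonneg {κ : Type*} [Finite κ] (x : κ → K) : 0 ≤ affHeight x := logHeight_nonneg _

omit [AdmissibleAbsValues K] in
theorem exists_homog {κ : Type*} (c : MvPolynomial κ K) :
    ∃ E₀ : ℕ, ∀ E ≥ E₀, ∃ g : MvPolynomial (Option κ) K, g.IsHomogeneous E ∧
      ∀ x : κ → K, eval (fun o : Option κ => o.elim (1 : K) x) g = eval x c := by
  induction c using MvPolynomial.induction_on with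
  | C a =>
    refine ⟨0, fun E _ => ⟨C a * X none ^ E, ?_, fun x => by simp⟩⟩
    have := (isHomogeneous_C (Option κ) a).mul ((isHomogeneous_X K (none : Option κ)).pow E)
    simpa using this
  | add u v hu hv =>
    obtain ⟨E₁, h1⟩ := hu
    obtain ⟨E₂, h2⟩ := hv
    refine ⟨max E₁ E₂, fun E hE => ?_⟩
    obtain ⟨g, hg, hg'⟩ := h1 E (le_of_max_le_left hE)
    obtain ⟨g', hg1, hg1'⟩ := h2 E (le_of_max_le_right hE)
    exact ⟨g + g', hg.add hg1, fun x => by rw [map_add, map_add, hg', hg1']⟩
  | mul_X u i hu =>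
    obtain ⟨E₁, h1⟩ := hu
    refine ⟨E₁ + 1, fun E hE => ?_⟩
    obtain ⟨E, rfl⟩ := Nat.exists_eq_add_of_le' (show 1 ≤ E by omega)
    obtain ⟨g, hg, hg'⟩ := h1 E (by omega)
    exact ⟨g * X (some i), hg.mul (isHomogeneous_X K _), fun x => by
      rw [map_mul, map_mul, hg', eval_X, eval_X]; rfl⟩

/-- The height of a finite family of polynomial functions of an affine point. -/
theorem logHeight_base {κ ι : Type*} [Finite κ] [Finite ι] (φ : ι → MvPolynomial κ K) :
    ∃ C E : ℝ, 0 ≤ C ∧ 0 ≤ E ∧ ∀ x : κ → K,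
      logHeight (fun i => eval x (φ i)) ≤ C + E * affHeight x := by
  classical
  have := Fintype.ofFinite ι
  choose E₀ hE₀ using fun i => exists_homog (φ i)
  choose g hg hg' using fun i => hE₀ i (Finset.univ.sup E₀) (Finset.le_sup (Finset.mem_univ i))
  obtain ⟨C, hC⟩ := logHeight_eval_le' (K := K) hg
  refine ⟨max C 0, (Finset.univ.sup E₀ : ℕ), le_max_right _ _, by positivity, fun x => ?_⟩
  have h1 := hC (fun o : Option κ => o.elim (1 : K) x)
  simp only [hg'] at h1
  refine h1.trans ?_
  rw [affHeight]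
  gcongr
  exact le_max_left _ _

/-- The height of the image of a pair of vectors under a bilinear map. -/
theorem logHeight_bilin {ι₁ ι₂ ι₃ : Type*} [Fintype ι₁] [Fintype ι₂] [Finite ι₃]
    (A : ι₃ × (ι₁ × ι₂) → K) :
    ∃ C : ℝ, 0 ≤ C ∧ ∀ (u : ι₁ → K) (v : ι₂ → K),
      logHeight (fun i => ∑ a : ι₁ × ι₂, A (i, a) * (u a.1 * v a.2)) ≤
        C + logHeight u + logHeight v := by
  refine ⟨totalWeight K * Real.log (Nat.card (ι₁ × ι₂)) + logHeight A, ?_, fun u v => ?_⟩
  · have := logHeight_nonneg A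
    have := Real.log_natCast_nonneg (Nat.card (ι₁ × ι₂))
    positivity
  · have h0 : 0 ≤ totalWeight K * Real.log (Nat.card (ι₁ × ι₂)) + logHeight A := by
      have := logHeight_nonneg A
      have := Real.log_natCast_nonneg (Nat.card (ι₁ × ι₂))
      positivity
    have hu := logHeight_nonneg u
    have hv := logHeight_nonneg v
    rcases eq_or_ne u 0 with rfl | hu0
    · have : (fun i => ∑ a : ι₁ × ι₂, A (i, a) * ((0 : ι₁ → K) a.1 * v a.2)) = 0 := by
        funext i; simp
      rw [this, logHeight_zero]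
      linarith
    rcases eq_or_ne v 0 with rfl | hv0
    · have : (fun i => ∑ a : ι₁ × ι₂, A (i, a) * (u a.1 * (0 : ι₂ → K) a.2)) = 0 := by
        funext i; simp
      rw [this, logHeight_zero]
      linarith
    have h1 := logHeight_linearMap_apply_le A (fun a : ι₁ × ι₂ => u a.1 * v a.2)
    rw [logHeight_fun_mul_eq hu0 hv0] at h1
    linarith

/-- The value of the form `P` with coefficients in `K[x]` at `(x, y)`. -/
noncomputable def ev {κ τ : Type*} (P : MvPolynomial τ (MvPolynomial κ K)) (x : κ → K) (y : τ → K) :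
    K := eval y (map (eval x) P)

/-- Upper bound for the height of the values of forms. -/
theorem logHeight_ev_le {κ τ ι : Type*} [Finite κ] [Finite τ] [Finite ι] (d : ℕ)
    (P : ι → MvPolynomial τ (MvPolynomial κ K)) (hP : ∀ i, (P i).IsHomogeneous d) :
    ∃ C E : ℝ, 0 ≤ C ∧ 0 ≤ E ∧ ∀ (x : κ → K) (y : τ → K),
      logHeight (fun i => ev (P i) x y) ≤ C + E * affHeight x + d * logHeight y := by
  classical
  have := Fintype.ofFinite ι
  have := Fintype.ofFinite τ
  set S : Finset (τ →₀ ℕ) := Finset.univ.biUnion fun i => (P i).support with hS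
  have hSP : ∀ i, (P i).support ⊆ S := fun i =>
    Finset.subset_biUnion_of_mem (fun i => (P i).support) (Finset.mem_univ i)
  have hSd : ∀ m : S, (monomial m.1 (1 : K)).IsHomogeneous d := by
    rintro ⟨m, hm⟩
    obtain ⟨i, -, hi⟩ := Finset.mem_biUnion.1 hm
    refine isHomogeneous_monomial _ ?_
    rw [mem_support_iff] at hi
    have := hP i hi
    rw [← this]
    simp [Finsupp.weight_apply, Finsupp.degree, Finsupp.sum]
  obtain ⟨C₁, E₁, hC₁, hE₁, h1⟩ := logHeight_base (K := K)
    (fun a : ι × S => coeff a.2.1 (P a.1))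
  obtain ⟨C₂, h2⟩ := logHeight_eval_le' (K := K) hSd
  obtain ⟨C₃, hC₃, h3⟩ := logHeight_bilin (K := K) (ι₁ := ι × S) (ι₂ := S) (ι₃ := ι)
    (fun t => if t.1 = t.2.1.1 ∧ t.2.1.2 = t.2.2 then 1 else 0)
  refine ⟨C₁ + max C₂ 0 + C₃, E₁, by positivity, hE₁, fun x y => ?_⟩
  have key : (fun i => ev (P i) x y) = fun i => ∑ a : (ι × S) × S,
      (if i = a.1.1 ∧ a.1.2 = a.2 then (1 : K) else 0) *
        (eval x (coeff a.1.2.1 (P a.1.1)) * eval y (monomial a.2.1 (1 : K))) := by
    funext i
    rw [ev, eval_map, eval₂_eq]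
    rw [Fintype.sum_prod_type, Fintype.sum_prod_type]
    rw [Finset.sum_eq_single i]
    · have e1 : ∀ m : S, ∑ m' : S, (if i = i ∧ m = m' then (1 : K) else 0) *
          (eval x (coeff m.1 (P i)) * eval y (monomial m'.1 (1 : K))) =
          eval x (coeff m.1 (P i)) * ∏ j ∈ m.1.support, y j ^ m.1 j := by
        intro m
        rw [Finset.sum_eq_single m]
        · simp [eval_monomial, Finsupp.prod]
        · intro b _ hb
          simp [Ne.symm hb]
        · simp
      refine Eq.trans ?_ (Finset.sum_congr rfl fun m _ => (e1 m).symm)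
      rw [Finset.sum_coe_sort S (fun m => eval x (coeff m (P i)) * ∏ j ∈ m.support, y j ^ m j)]
      refine Finset.sum_subset (hSP i) fun m _ hm => ?_
      rw [notMem_support_iff.1 hm, map_zero, zero_mul]
    · intro b _ hb
      refine Finset.sum_eq_zero fun m _ => Finset.sum_eq_zero fun m' _ => ?_
      simp [Ne.symm hb]
    · simp
  rw [key]
  have h4 := h3 (fun a : ι × S => eval x (coeff a.2.1 (P a.1)))
    (fun m : S => eval y (monomial m.1 (1 : K)))
  have h5 := h1 x
  have h6 := h2 y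
  have h7 := le_max_left C₂ 0
  linarith

/-- Lower bound for the height of the values of forms. -/
theorem logHeight_ev_ge {κ τ ι : Type*} [Finite κ] [Finite τ] [Fintype ι] (d e : ℕ)
    (P : ι → MvPolynomial τ (MvPolynomial κ K)) (ρ : MvPolynomial κ K)
    (q : τ × ι → MvPolynomial τ (MvPolynomial κ K)) (hq : ∀ a, (q a).IsHomogeneous e)
    (hqP : ∀ j, ∑ i, q (j, i) * P i = C ρ * X j ^ (e + d)) :
    ∃ C E : ℝ, 0 ≤ C ∧ 0 ≤ E ∧ ∀ (x : κ → K) (y : τ → K), eval x ρ ≠ 0 →
      d * logHeight y ≤ C + E * affHeight x + logHeight (fun i => ev (P i) x y) := by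
  classical
  have := Fintype.ofFinite τ
  obtain ⟨C₁, E₁, hC₁, hE₁, h1⟩ := logHeight_ev_le (K := K) e q hq
  obtain ⟨C₃, hC₃, h3⟩ := logHeight_bilin (K := K) (ι₁ := τ × ι) (ι₂ := ι) (ι₃ := τ)
    (fun t => if t.1 = t.2.1.1 ∧ t.2.1.2 = t.2.2 then 1 else 0)
  refine ⟨C₁ + C₃, E₁, by positivity, hE₁, fun x y hx => ?_⟩
  have key : (eval x ρ) • (y ^ (e + d)) = fun j => ∑ a : (τ × ι) × ι,
      (if j = a.1.1 ∧ a.1.2 = a.2 then (1 : K) else 0) * (ev (q a.1) x y * ev (P a.2) x y) := by
    funext j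
    have h4 := congrArg (fun F => ev F x y) (hqP j)
    simp only [ev, map_sum, map_mul, map_C, eval_C, map_pow, map_X, eval_X] at h4
    rw [Pi.smul_apply, Pi.pow_apply, smul_eq_mul, ← h4]
    rw [Fintype.sum_prod_type, Fintype.sum_prod_type]
    rw [Finset.sum_eq_single j]
    · refine Finset.sum_congr rfl fun i _ => ?_
      rw [Finset.sum_eq_single i]
      · simp [ev]
      · intro b _ hb
        simp [Ne.symm hb]
      · simp
    · intro b _ hb
      refine Finset.sum_eq_zero fun m _ => Finset.sum_eq_zero fun m' _ => ?_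
      simp [Ne.symm hb]
    · simp
  have h5 := h3 (fun a : τ × ι => ev (q a) x y) (fun i => ev (P i) x y)
  have h6 : logHeight ((eval x ρ) • (y ^ (e + d))) = (e + d : ℕ) * logHeight y := by
    rw [logHeight_smul_eq_logHeight _ hx, logHeight_pow]
  rw [key] at h6
  have h7 := h1 x y
  rw [h6] at h5
  push_cast at h5
  linarith

end Pool.Agent.H85.HG
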