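import Mathlib

/-!
The arithmetic core of the height gap: let `R` be a commutative ring, `p : R` with `R / p` finite,
and let `x` be an orbit of a polynomial self-map of `R ^ σ`. Along a suitable arithmetic
progression the `k`-th finite differences of the orbit are divisible by `p ^ k` from the index `k`
on. (No invertibility of the Jacobian is needed.)
-/

set_option autoImplicit false

open MvPolynomial

namespace Pool.Agent.H85.HG

section pt

variable {σ R : Type*} [CommRing R]

/-- The action of an endomorphism of the polynomial ring on points. -/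
noncomputable def pt (T : MvPolynomial σ R →ₐ[R] MvPolynomial σ R) (z : σ → R) : σ → R :=
  fun s => eval z (T (X s))

theorem eval_T (T : MvPolynomial σ R →ₐ[R] MvPolynomial σ R) (z : σ → R)
    (h : MvPolynomial σ R) : eval z (T h) = eval (pt T z) h := by
  have h1 : (aeval z : MvPolynomial σ R →ₐ[R] R).comp T = aeval (pt T z) := by
    apply algHom_ext
    intro s
    simp [pt]
  have h2 := DFunLike.congr_fun h1 h
  simpa [coe_aeval_eq_eval] using h2

theorem eval_T_pow (T : MvPolynomial σ R →ₐ[R] MvPolynomial σ R) (n : ℕ) :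
    ∀ (z : σ → R) (h : MvPolynomial σ R), eval z ((T ^ n) h) = eval ((pt T)^[n] z) h := by
  induction n with
  | zero => intro z h; simp
  | succ n ih =>
    intro z h
    rw [pow_succ', AlgHom.mul_apply, eval_T, ih, ← Function.iterate_succ_apply]

theorem pt_pow (T : MvPolynomial σ R →ₐ[R] MvPolynomial σ R) (n : ℕ) (z : σ → R) :
    pt (T ^ n) z = (pt T)^[n] z := by
  funext s
  rw [pt, eval_T_pow, eval_X]

end pt

section idem

/-- In a monoid, an element `a` with `a ^ i = a ^ j`, `i < j`, has idempotent `M`-th power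
whenever `i ≤ M` and `j - i ∣ M`. -/
theorem idem_of_pow_eq {M : Type*} [Monoid M] (a : M) {i j : ℕ} (hij : i < j)
    (h : a ^ i = a ^ j) (m : ℕ) (him : i ≤ m) (hm : j - i ∣ m) : a ^ m * a ^ m = a ^ m := by
  obtain ⟨q, rfl⟩ := Nat.exists_eq_add_of_lt hij
  have h1 : ∀ t, i ≤ t → a ^ (t + (q + 1)) = a ^ t := by
    intro t ht
    obtain ⟨r, rfl⟩ := Nat.exists_eq_add_of_le ht
    rw [show i + r + (q + 1) = (i + q + 1) + r by ring, pow_add, ← h, ← pow_add]
  have h2 : ∀ t l, i ≤ t → a ^ (t + (q + 1) * l) = a ^ t := by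
    intro t l ht
    induction l with
    | zero => simp
    | succ l ih =>
      rw [show t + (q + 1) * (l + 1) = (t + (q + 1) * l) + (q + 1) by ring, h1 _ (by omega), ih]
  rw [show i + q + 1 - i = q + 1 by omega] at hm
  obtain ⟨l, rfl⟩ := hm
  rw [← pow_add, h2 _ _ him]

variable {σ R : Type*} [CommRing R] [Fintype σ]

/-- The polynomial of degree at most one with constant term `t.1`. -/
noncomputable def lin (t : R × (σ → R)) : MvPolynomial σ R := C t.1 + ∑ i, C (t.2 i) * X i

theorem X_mem_lin [DecidableEq σ] (s : σ) : (X s : MvPolynomial σ R) ∈ Set.range (lin (σ := σ) (R := R)) := by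
  refine ⟨(0, Pi.single s 1), ?_⟩
  simp only [lin, map_zero, zero_add]
  rw [Finset.sum_eq_single s]
  · simp
  · intro b _ hb; simp [Pi.single_eq_of_ne hb]
  · simp

theorem lin_closed (T : MvPolynomial σ R →ₐ[R] MvPolynomial σ R)
    (hT : ∀ s, T (X s) ∈ Set.range (lin (σ := σ) (R := R))) (h : MvPolynomial σ R)
    (hh : h ∈ Set.range (lin (σ := σ) (R := R))) : T h ∈ Set.range (lin (σ := σ) (R := R)) := by
  choose t ht using hT
  obtain ⟨u, rfl⟩ := hh
  refine ⟨(u.1 + ∑ i, u.2 i * (t i).1, fun k => ∑ i, u.2 i * (t i).2 k), ?_⟩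
  have hC : ∀ c : R, T (C c) = C c := fun c => by
    rw [← algebraMap_eq, AlgHom.commutes]
  simp only [lin, map_add, map_sum, map_mul, hC, ← ht]
  simp only [mul_add, Finset.sum_add_distrib, Finset.mul_sum, Finset.sum_mul, add_assoc]
  congr 2
  rw [Finset.sum_comm]
  refine Finset.sum_congr rfl fun k _ => Finset.sum_congr rfl fun i _ => ?_
  ring

/-- Over a finite ring a fixed positive power of every affine substitution is idempotent. -/
theorem exists_idem_affine (σ R : Type*) [CommRing R] [Fintype σ] [Finite R] :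
    ∃ m, 0 < m ∧ ∀ T : MvPolynomial σ R →ₐ[R] MvPolynomial σ R,
      (∀ s, T (X s) ∈ Set.range (lin (σ := σ) (R := R))) → T ^ m * T ^ m = T ^ m := by
  classical
  have hV : (Set.range (lin (σ := σ) (R := R))).Finite := Set.finite_range _
  have : Finite (Set.range (lin (σ := σ) (R := R))) := hV
  have := Fintype.ofFinite (σ → Set.range (lin (σ := σ) (R := R)))
  set n₀ := Fintype.card (σ → Set.range (lin (σ := σ) (R := R))) with hn₀
  refine ⟨n₀.factorial, Nat.factorial_pos _, fun T hT => ?_⟩
  have hmem : ∀ (n : ℕ) (s : σ), (T ^ n) (X s) ∈ Set.range (lin (σ := σ) (R := R)) := by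
    intro n
    induction n with
    | zero => intro s; simpa using X_mem_lin s
    | succ n ih =>
      intro s
      rw [pow_succ', AlgHom.mul_apply]
      exact lin_closed T hT _ (ih s)
  let φ : Fin (n₀ + 1) → (σ → Set.range (lin (σ := σ) (R := R))) :=
    fun n s => ⟨(T ^ (n : ℕ)) (X s), hmem n s⟩
  obtain ⟨i, j, hij, h⟩ := Fintype.exists_ne_map_eq_of_card_lt φ (by simp [n₀])
  have hpow : T ^ (i : ℕ) = T ^ (j : ℕ) := by
    apply algHom_ext
    intro s
    have := congrFun h s
    exact congrArg Subtype.val this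
  have key : ∀ i j : ℕ, i < j → j ≤ n₀ → T ^ i = T ^ j →
      T ^ n₀.factorial * T ^ n₀.factorial = T ^ n₀.factorial := by
    intro i j hij hj h
    refine idem_of_pow_eq T hij h _ ?_ (Nat.dvd_factorial (by omega) (by omega))
    exact (hij.le.trans hj).trans (Nat.self_le_factorial _)
  rcases lt_or_gt_of_ne hij with h1 | h1
  · exact key i j h1 (by omega) hpow
  · exact key j i h1 (by omega) hpow.symm

end idem

section taylor

variable {σ R : Type*} [CommRing R] [Fintype σ]

/-- Taylor expansion modulo `p ^ 2`. -/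
theorem taylor (p : R) (a : σ → R) (h : MvPolynomial σ R) :
    ∃ (l : σ → R) (Q : MvPolynomial σ R),
      bind₁ (fun i => C (a i) + C p * X i) h =
        C (eval a h) + C p * (∑ i, C (l i) * X i) + C p * (C p * Q) := by
  classical
  induction h using MvPolynomial.induction_on with
  | C c => exact ⟨0, 0, by simp⟩
  | add u v hu hv =>
    obtain ⟨l, Q, h1⟩ := hu
    obtain ⟨l', Q', h2⟩ := hv
    refine ⟨l + l', Q + Q', ?_⟩
    rw [map_add, h1, h2]
    simp only [Pi.add_apply, map_add, add_mul, Finset.sum_add_distrib]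
    ring
  | mul_X u i hu =>
    obtain ⟨l, Q, h1⟩ := hu
    refine ⟨fun j => a i * l j + (Pi.single i (eval a u) : σ → R) j,
      C (a i) * Q + (∑ j, C (l j) * X j) * X i + C p * Q * X i, ?_⟩
    have h2 : (∑ j, (C (a i * l j + (Pi.single i (eval a u) : σ → R) j) : MvPolynomial σ R) * X j)
        = C (a i) * (∑ j, C (l j) * X j) + C (eval a u) * X i := by
      simp only [map_add, add_mul, Finset.sum_add_distrib, map_mul, Finset.mul_sum, mul_assoc]
      congr 1
      rw [Finset.sum_eq_single i]
      · simp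
      · intro b _ hb; simp [Pi.single_eq_of_ne hb]
      · simp
    rw [map_mul, h1, h2, bind₁_X_right]
    simp only [map_mul, eval_X]
    ring

end taylor

section divis

variable {σ R : Type*} [CommRing R]

theorem map_T_pow {S : Type*} [CommRing S] (φ : R →+* S)
    (T : MvPolynomial σ R →ₐ[R] MvPolynomial σ R) (T' : MvPolynomial σ S →ₐ[S] MvPolynomial σ S)
    (h : ∀ s, map φ (T (X s)) = T' (X s)) (n : ℕ) (u : MvPolynomial σ R) :
    map φ ((T ^ n) u) = (T' ^ n) (map φ u) := by
  have h1 : ∀ u, map φ (T u) = T' (map φ u) := by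
    intro u
    have e1 : T = bind₁ (fun s => T (X s)) := by
      apply algHom_ext; intro s; rw [bind₁_X_right]
    have e2 : T' = bind₁ (fun s => T' (X s)) := by
      apply algHom_ext; intro s; rw [bind₁_X_right]
    rw [e1, map_bind₁]
    conv_rhs => rw [e2]
    congr 2
    funext s
    exact h s
  induction n generalizing u with
  | zero => simp
  | succ n ih => rw [pow_succ, AlgHom.mul_apply, ih, h1, pow_succ, AlgHom.mul_apply]

/-- If `T` is idempotent modulo `p`, then `(T (T - 1)) ^ k` maps into the multiples of `p ^ k`. -/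
theorem pow_dvd_of_idem (p : R) (T : MvPolynomial σ R →ₐ[R] MvPolynomial σ R)
    (h : ∀ u, C p ∣ T (T u) - T u) (k : ℕ) (u : MvPolynomial σ R) :
    C (p ^ k) ∣ ((T.toLinearMap * (T.toLinearMap - 1)) ^ k) u := by
  induction k generalizing u with
  | zero => simp
  | succ k ih =>
    obtain ⟨w, hw⟩ := h u
    have h1 : (T.toLinearMap * (T.toLinearMap - 1)) u = C p * w := by
      rw [← hw]; simp [Module.End.mul_apply]
    have h2 : ((T.toLinearMap * (T.toLinearMap - 1)) ^ (k + 1)) u =
        C p * ((T.toLinearMap * (T.toLinearMap - 1)) ^ k) w := by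
      rw [pow_succ, Module.End.mul_apply, h1, ← smul_eq_C_mul, map_smul, smul_eq_C_mul]
    rw [h2, pow_succ', map_mul]
    exact mul_dvd_mul_left _ (ih w)

theorem fwdDiff_orbit (T : MvPolynomial σ R →ₐ[R] MvPolynomial σ R) (z : ℕ → σ → R)
    (hz : ∀ n, z (n + 1) = pt T (z n)) (k : ℕ) (h : MvPolynomial σ R) :
    (fwdDiff 1)^[k] (fun n => eval (z n) h) =
      fun n => eval (z n) (((T.toLinearMap - 1) ^ k) h) := by
  induction k generalizing h with
  | zero => simp
  | succ k ih =>
    rw [Function.iterate_succ_apply, pow_succ, Module.End.mul_apply, ← ih]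
    congr 1
    funext n
    simp [fwdDiff, hz, eval_T]

theorem eval_shift (T : MvPolynomial σ R →ₐ[R] MvPolynomial σ R) (z : ℕ → σ → R)
    (hz : ∀ n, z (n + 1) = pt T (z n)) (k n : ℕ) (h : MvPolynomial σ R) :
    eval (z (n + k)) h = eval (z n) ((T.toLinearMap ^ k) h) := by
  induction k generalizing h with
  | zero => simp
  | succ k ih =>
    rw [← add_assoc, hz, ← eval_T, ih, pow_succ, Module.End.mul_apply]
    rfl

/-- The finite differences along an orbit of an idempotent-modulo-`p` map. -/
theorem dvd_fwdDiff (p : R) (T : MvPolynomial σ R →ₐ[R] MvPolynomial σ R)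
    (h : ∀ u, C p ∣ T (T u) - T u) (z : ℕ → σ → R) (hz : ∀ n, z (n + 1) = pt T (z n))
    (k i : ℕ) (hki : k ≤ i) (u : MvPolynomial σ R) :
    p ^ k ∣ (fwdDiff 1)^[k] (fun n => eval (z n) u) i := by
  obtain ⟨j, rfl⟩ := Nat.exists_eq_add_of_le' hki
  rw [fwdDiff_orbit T z hz]
  simp only
  rw [eval_shift T z hz, ← Module.End.mul_apply, ← Commute.mul_pow]
  · obtain ⟨w, hw⟩ := pow_dvd_of_idem p T h k u
    rw [hw, map_mul, eval_C]
    exact dvd_mul_right _ _
  · exact (Commute.refl _).sub_right (Commute.one_right _)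

end divis

/-- The `k`-th differences of every orbit of a polynomial map are divisible by `p ^ k` from the
index `k` on, along an arithmetic progression whose step does not depend on the orbit. -/
theorem core {σ R : Type*} [CommRing R] [Finite σ] (p : R) [Finite (R ⧸ Ideal.span {p})]
    (f : σ → MvPolynomial σ R) :
    ∃ b, 0 < b ∧ ∀ x : ℕ → σ → R, (∀ n s, x (n + 1) s = eval (x n) (f s)) →
      ∃ n₁, ∀ k i s, k ≤ i → p ^ k ∣ (fwdDiff 1)^[k] (fun j => x (n₁ + b * j) s) i := by
  classical
  have := Fintype.ofFinite σ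
  set q := Ideal.Quotient.mk (Ideal.span {p}) with hq
  have hq0 : ∀ r, q r = 0 ↔ p ∣ r := fun r => by
    rw [hq, Ideal.Quotient.eq_zero_iff_mem, Ideal.mem_span_singleton]
  obtain ⟨m, hm, hidem⟩ := exists_idem_affine σ (R ⧸ Ideal.span {p})
  have := Fintype.ofFinite (σ → R ⧸ Ideal.span {p})
  set c₀ := Fintype.card (σ → R ⧸ Ideal.span {p}) with hc₀
  refine ⟨c₀.factorial * m, mul_pos (Nat.factorial_pos _) hm, fun x hx => ?_⟩
  let Tf : MvPolynomial σ R →ₐ[R] MvPolynomial σ R := bind₁ f
  have hTf : ∀ n, x (n + 1) = pt Tf (x n) := fun n => by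
    funext s; rw [hx, pt, bind₁_X_right]
  have hTf' : ∀ n m, x (n + m) = (pt Tf)^[m] (x n) := by
    intro n m
    induction m with
    | zero => rfl
    | succ m ih => rw [← add_assoc, hTf, ih]; exact (Function.iterate_succ_apply' _ _ _).symm
  -- the orbit modulo `p` is eventually periodic
  have hstep : ∀ u v : ℕ, (∀ s, q (x u s) = q (x v s)) → ∀ l s, q (x (u + l) s) = q (x (v + l) s) := by
    intro u v huv l
    induction l with
    | zero => exact huv
    | succ l ih =>
      intro s
      rw [← add_assoc, ← add_assoc, hx, hx]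
      have h1 : ∀ w : σ → R, q (eval w (f s)) = eval (fun i => q (w i)) (map q (f s)) := fun w => by
        rw [eval_map, eval₂_comp]; rfl
      rw [h1, h1]
      congr 2
      funext i
      exact ih i
  obtain ⟨n₁, hn₁⟩ : ∃ n₁, ∀ s, p ∣ x (n₁ + c₀.factorial) s - x n₁ s := by
    obtain ⟨i, j, hij, h⟩ := Fintype.exists_ne_map_eq_of_card_lt
      (fun (n : Fin (c₀ + 1)) s => q (x (n : ℕ) s)) (by simp [c₀])
    have key : ∀ i j : ℕ, i < j → j ≤ c₀ → (∀ s, q (x i s) = q (x j s)) →
        ∃ n₁, ∀ s, p ∣ x (n₁ + c₀.factorial) s - x n₁ s := by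
      intro i j hij hj h
      refine ⟨i, fun s => ?_⟩
      rw [← hq0, map_sub, sub_eq_zero]
      obtain ⟨l, hl⟩ := Nat.dvd_factorial (show 0 < j - i by omega) (show j - i ≤ c₀ by omega)
      rw [hl]
      clear hl
      induction l with
      | zero => simp
      | succ l ih =>
        have h2 := hstep i j h ((j - i) * l) s
        rw [← ih, show i + (j - i) * (l + 1) = j + (j - i) * l by rw [mul_add]; omega]
        exact h2.symm
    rcases lt_or_gt_of_ne hij with h1 | h1
    · exact key i j h1 (by omega) (fun s => congrFun h s)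
    · exact key j i h1 (by omega) (fun s => (congrFun h s).symm)
  obtain ⟨b₀, hb₀⟩ : ∃ b₀, c₀.factorial = b₀ + 1 :=
    ⟨_, (Nat.succ_pred_eq_of_pos (Nat.factorial_pos c₀)).symm⟩
  rw [hb₀] at hn₁ ⊢
  set a := x n₁ with ha
  let F : MvPolynomial σ R →ₐ[R] MvPolynomial σ R := Tf ^ (b₀ + 1)
  have hF : ∀ m, x (n₁ + (b₀ + 1) * m) = (pt F)^[m] a := by
    intro m
    have h1 : pt F = (pt Tf)^[b₀ + 1] := by funext z; exact pt_pow _ _ _
    rw [hTf', h1, ← Function.iterate_mul]
  choose u hu using hn₁
  have hFa : ∀ s, eval a (F (X s)) = a s + p * u s := by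
    intro s
    have h1 := congrFun (hF 1) s
    rw [Function.iterate_one, pt, mul_one] at h1
    rw [← h1, ← hu s]
    ring_nf
  -- the rescaled map
  choose l Q hQ using fun s => taylor p a (F (X s))
  let g : σ → MvPolynomial σ R := fun s => C (u s) + ∑ i, C (l s i) * X i + C p * Q s
  let G : MvPolynomial σ R →ₐ[R] MvPolynomial σ R := bind₁ g
  have hG : ∀ z s, eval (fun i => a i + p * z i) (F (X s)) = a s + p * eval z (G (X s)) := by
    intro z s
    have h1 : eval (fun i => a i + p * z i) (F (X s)) =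
        eval z (bind₁ (fun i => C (a i) + C p * X i) (F (X s))) := by
      rw [eval_T (bind₁ (fun i => C (a i) + C p * X i)) z]
      congr 2
      funext i
      simp [pt]
    rw [h1, hQ s, bind₁_X_right]
    simp only [g, map_add, map_mul, eval_C, hFa]
    ring
  -- idempotent power modulo `p`
  let G' : MvPolynomial σ (R ⧸ Ideal.span {p}) →ₐ[R ⧸ Ideal.span {p}]
    MvPolynomial σ (R ⧸ Ideal.span {p}) := bind₁ (fun s => map q (g s))
  have hGG' : ∀ s, map q (G (X s)) = G' (X s) := fun s => by
    rw [bind₁_X_right, bind₁_X_right]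
  have hqp : q p = 0 := by rw [hq0]
  have hidem := hidem G' (fun s => by
    refine ⟨(q (u s), fun i => q (l s i)), ?_⟩
    rw [bind₁_X_right]
    simp [g, lin, hqp])
  let T := G ^ m
  have hT : ∀ w, C p ∣ T (T w) - T w := by
    intro w
    rw [C_dvd_iff_map_hom_eq_zero q p hq0, map_sub, map_T_pow q G G' hGG', map_T_pow q G G' hGG',
      ← AlgHom.mul_apply, hidem, sub_self]
  -- the rescaled orbit
  let z : ℕ → σ → R := fun n => (pt G)^[m * n] 0
  have hz : ∀ n, z (n + 1) = pt T (z n) := by
    intro n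
    rw [pt_pow, ← Function.iterate_add_apply]
    simp only [z]
    ring_nf
  have hxz : ∀ n, (pt F)^[n] a = fun s => a s + p * ((pt G)^[n] 0) s := by
    intro n
    induction n with
    | zero => funext s; simp
    | succ n ih =>
      rw [Function.iterate_succ_apply', ih, Function.iterate_succ_apply']
      funext s
      rw [pt, hG, pt]
  refine ⟨n₁, ?_⟩
  intro k i s hki
  have h1 : (fun j => x (n₁ + (b₀ + 1) * m * j) s) =
      (fun j => a s) + p • (fun j => eval (z j) (X s : MvPolynomial σ R)) := by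
    funext j
    rw [mul_assoc, hF, hxz]
    simp [z]
  rw [h1, fwdDiff_iter_add, fwdDiff_iter_const_smul]
  have h2 : p ^ k ∣ (fwdDiff 1)^[k] (fun j => eval (z j) (X s : MvPolynomial σ R)) i :=
    dvd_fwdDiff p T hT z hz k i hki _
  rcases Nat.eq_zero_or_pos k with rfl | hk
  · simp
  · have h3 : (fwdDiff 1)^[k] (fun _ : ℕ => a s) = fun _ => 0 := by
      obtain ⟨k, rfl⟩ := Nat.exists_eq_add_of_lt hk
      rw [zero_add, Function.iterate_succ_apply, fwdDiff_const]
      clear h2 hki
      induction k with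
      | zero => rfl
      | succ k ih =>
        rw [Function.iterate_succ_apply]
        have : fwdDiff 1 (fun _ : ℕ => (0 : R)) = fun _ => 0 := fwdDiff_const _ _
        rw [this]
        exact ih (by omega)
    rw [Pi.add_apply, h3, zero_add, Pi.smul_apply, smul_eq_mul]
    exact Dvd.dvd.mul_left h2 p

end Pool.Agent.H85.HG
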