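import Mathlib

/-!
Local and global heights on a number field: an absolute value is at most the height; `D`-integral
elements; the height of an element divisible by `p ^ k`; the height of finite differences.
-/

set_option autoImplicit false

open Height Height.AdmissibleAbsValues

namespace Pool.Agent.H85.HG

section general

variable {K : Type*} [Field K] [AdmissibleAbsValues K]

theorem hfin (x : K) : (fun v : nonarchAbsVal (K := K) => max (v.val x) 1).HasFiniteMulSupport := by
  rcases eq_or_ne x 0 with rfl | hx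
  · have : (fun v : nonarchAbsVal (K := K) => max (v.val (0 : K)) 1) = fun _ => 1 := by
      funext v; simp
    rw [this]
    exact Function.hasFiniteMulSupport_one
  · refine (hasFiniteMulSupport (K := K) hx).subset ?_
    intro v hv
    simp only [Function.mem_mulSupport] at hv ⊢
    intro h
    exact hv (by rw [h, max_self])

theorem arch_prod_ge_one (x : K) :
    1 ≤ ((archAbsVal (K := K)).map fun v => max (v x) 1).prod :=
  Multiset.one_le_prod_map fun _ _ => le_max_right _ _

theorem nonarch_prod_ge_one (x : K) :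
    1 ≤ ∏ᶠ v : nonarchAbsVal (K := K), max (v.val x) 1 :=
  one_le_finprod fun _ => le_max_right _ _

theorem arch_le {v : AbsoluteValue K ℝ} (hv : v ∈ archAbsVal (K := K)) (x : K) :
    max (v x) 1 ≤ mulHeight₁ x := by
  classical
  obtain ⟨t, ht⟩ := Multiset.exists_cons_of_mem hv
  rw [mulHeight₁_eq, ht, Multiset.map_cons, Multiset.prod_cons, mul_assoc]
  have h1 : 1 ≤ (t.map fun v => max (v x) 1).prod * ∏ᶠ v : nonarchAbsVal (K := K),
      max (v.val x) 1 :=
    one_le_mul_of_one_le_of_one_le (Multiset.one_le_prod_map fun _ _ => le_max_right _ _)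
      (nonarch_prod_ge_one x)
  have h2 : 0 ≤ max (v x) 1 := by positivity
  nlinarith

theorem nonarch_le (v : nonarchAbsVal (K := K)) (x : K) :
    max (v.val x) 1 ≤ mulHeight₁ x := by
  classical
  have h1 : max (v.val x) 1 ≤ ∏ᶠ w : nonarchAbsVal (K := K), max (w.val x) 1 := by
    rw [← mul_finprod_cond_ne v (hfin x)]
    have h2 : (1 : ℝ) ≤ ∏ᶠ (w : nonarchAbsVal (K := K)) (_ : w ≠ v), max (w.val x) 1 := by
      refine one_le_finprod fun w => ?_
      by_cases h : w = v
      · simp [h]
      · simp [h]
    have h3 : (0 : ℝ) ≤ max (v.val x) 1 := by positivity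
    nlinarith
  rw [mulHeight₁_eq]
  have h4 := arch_prod_ge_one x
  have h5 := nonarch_prod_ge_one x
  nlinarith

omit [AdmissibleAbsValues K] in
theorem abv_fwdDiff_le (v : AbsoluteValue K ℝ) (A : ℝ) (k : ℕ) :
    ∀ (y : ℕ → K) (i : ℕ), (∀ j ≤ k, v (y (i + j)) ≤ A) → v ((fwdDiff 1)^[k] y i) ≤ 2 ^ k * A := by
  induction k generalizing A with
  | zero => intro y i h; simpa using h 0 le_rfl
  | succ k ih =>
    intro y i h
    rw [Function.iterate_succ_apply, pow_succ, mul_assoc]
    refine ih (2 * A) _ _ fun j hj => ?_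
    have h1 := h (j + 1) (by omega)
    have h2 := h j (by omega)
    rw [← add_assoc] at h1
    have h3 := v.add_le (y (i + j + 1)) (-(y (i + j)))
    rw [v.map_neg, ← sub_eq_add_neg] at h3
    simp only [fwdDiff]
    linarith

omit [AdmissibleAbsValues K] in
theorem abv_fwdDiff_le' (v : AbsoluteValue K ℝ) (hv : IsNonarchimedean v) (A : ℝ) (k : ℕ) :
    ∀ (y : ℕ → K) (i : ℕ), (∀ j ≤ k, v (y (i + j)) ≤ A) → v ((fwdDiff 1)^[k] y i) ≤ A := by
  induction k generalizing A with
  | zero => intro y i h; simpa using h 0 le_rfl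
  | succ k ih =>
    intro y i h
    rw [Function.iterate_succ_apply]
    refine ih A _ _ fun j hj => ?_
    have h1 := h (j + 1) (by omega)
    have h2 := h j (by omega)
    rw [← add_assoc] at h1
    have h3 := hv (y (i + j + 1)) (-(y (i + j)))
    rw [v.map_neg, ← sub_eq_add_neg] at h3
    simp only [fwdDiff]
    exact h3.trans (max_le h1 h2)

/-- The number of nonarchimedean absolute values that see `D`. -/
noncomputable def badCard (D : K) : ℕ := Set.ncard {v : nonarchAbsVal (K := K) | v.val D ≠ 1}

/-- The height of a finite difference of elements which are integral outside `D`. -/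
theorem mulHeight_fwdDiff_le (D : K) (hD : D ≠ 0) (y : ℕ → K)
    (hy : ∀ (v : nonarchAbsVal (K := K)) n, v.val D = 1 → v.val (y n) ≤ 1)
    (B : ℝ) (k i : ℕ) (hB : ∀ j ≤ k, mulHeight₁ (y (i + j)) ≤ B) :
    mulHeight₁ ((fwdDiff 1)^[k] y i) ≤ (2 ^ k * B) ^ totalWeight K * B ^ badCard D := by
  classical
  have hB1 : 1 ≤ B := (one_le_mulHeight₁ _).trans (hB 0 (Nat.zero_le _))
  have hkB : 1 ≤ 2 ^ k * B := one_le_mul_of_one_le_of_one_le (one_le_pow₀ (by norm_num)) hB1
  rw [mulHeight₁_eq]
  have hfinS : {v : nonarchAbsVal (K := K) | v.val D ≠ 1}.Finite := hasFiniteMulSupport hD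
  gcongr
  · exact (nonarch_prod_ge_one _).trans' zero_le_one
  · calc ((archAbsVal (K := K)).map fun v => max (v ((fwdDiff 1)^[k] y i)) 1).prod
        ≤ ((archAbsVal (K := K)).map fun _ => 2 ^ k * B).prod := by
          refine Multiset.prod_map_le_prod_map₀ _ _ (fun v _ => by positivity) fun v hv => ?_
          refine max_le ?_ hkB
          refine abv_fwdDiff_le v B k y i fun j hj => ?_
          exact (le_max_left _ _).trans ((arch_le hv _).trans (hB j hj))
      _ = _ := by simp [totalWeight]
  · have hs : (Function.mulSupport fun v : nonarchAbsVal (K := K) =>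
        max (v.val ((fwdDiff 1)^[k] y i)) 1) ⊆ (hfinS.toFinset : Set _) := by
      intro v hv
      simp only [Function.mem_mulSupport, Set.Finite.coe_toFinset, Set.mem_setOf_eq] at hv ⊢
      intro h
      apply hv
      refine max_eq_right ?_
      exact abv_fwdDiff_le' v.val (isNonarchimedean _ v.2) 1 k y i fun j _ => hy v _ h
    rw [finprod_eq_prod_of_mulSupport_subset _ hs]
    calc ∏ v ∈ hfinS.toFinset, max (v.val ((fwdDiff 1)^[k] y i)) 1
        ≤ ∏ _v ∈ hfinS.toFinset, B := by
          refine Finset.prod_le_prod (fun v _ => by positivity) fun v _ => ?_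
          refine max_le ?_ hB1
          refine abv_fwdDiff_le' v.val (isNonarchimedean _ v.2) B k y i fun j hj => ?_
          exact (le_max_left _ _).trans ((nonarch_le v _).trans (hB j hj))
      _ = _ := by
        rw [Finset.prod_const, badCard, Set.ncard_eq_toFinset_card _ hfinS]

/-- The height of a nonzero element divisible by `q`, where `q` is a unit at the absolute values
which see `D`. -/
theorem mulHeight_ge_of_dvd (D q u w : K) (hu : u ≠ 0) (h : u = q * w)
    (hw : ∀ v : nonarchAbsVal (K := K), v.val D = 1 → v.val w ≤ 1)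
    (hqD : ∀ v : nonarchAbsVal (K := K), v.val D ≠ 1 → v.val q = 1)
    (harch : ∀ v ∈ archAbsVal (K := K), v q⁻¹ ≤ 1) :
    mulHeight₁ q ≤ mulHeight₁ u := by
  rw [← mulHeight₁_inv q, ← mulHeight₁_inv u, mulHeight₁_eq q⁻¹, mulHeight₁_eq u⁻¹]
  have h1 : ((archAbsVal (K := K)).map fun v => max (v q⁻¹) 1).prod = 1 := by
    refine Multiset.prod_eq_one fun x hx => ?_
    obtain ⟨v, hv, rfl⟩ := Multiset.mem_map.1 hx
    exact max_eq_right (harch v hv)
  rw [h1, one_mul]
  have h2 : ∏ᶠ v : nonarchAbsVal (K := K), max (v.val q⁻¹) 1 ≤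
      ∏ᶠ v : nonarchAbsVal (K := K), max (v.val u⁻¹) 1 := by
    refine finprod_le_finprod (hfin _) (fun v => by positivity) (hfin _) fun v => ?_
    simp only
    by_cases hv : v.val D = 1
    · refine max_le_max ?_ le_rfl
      have hw0 : w ≠ 0 := by rintro rfl; exact hu (by rw [h, mul_zero])
      rw [h, mul_inv, map_mul]
      have h3 : 1 ≤ v.val w⁻¹ := by
        rw [map_inv₀]
        exact (one_le_inv₀ (v.val.pos hw0)).2 (hw v hv)
      have h4 : 0 ≤ v.val q⁻¹ := v.val.nonneg _
      nlinarith
    · rw [map_inv₀, hqD v hv, inv_one, max_self]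
      exact le_max_right _ _
  have h5 := arch_prod_ge_one u⁻¹
  have h6 := nonarch_prod_ge_one u⁻¹
  nlinarith

end general

end Pool.Agent.H85.HG
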