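import Pool.Agent.H85.HG.Core
import Pool.Agent.H85.HG.Local

/-!
`D`-integral elements of a number field, and the vanishing of finite differences of slow orbits.
-/

set_option autoImplicit false

open Height Height.AdmissibleAbsValues NumberField

namespace Pool.Agent.H85.HG

variable {K : Type*} [Field K] [NumberField K]

theorem nonarch_int_le (v : nonarchAbsVal (K := K)) {x : K} (hx : IsIntegral ℤ x) :
    v.val x ≤ 1 := by
  obtain ⟨w, hw⟩ := (isFinitePlace_iff v.val).1 v.2
  rw [← hw, ← FinitePlace.coe_apply, ← FinitePlace.norm_embedding_eq]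
  exact FinitePlace.norm_le_one K w.maximalIdeal (⟨x, hx⟩ : 𝓞 K)

theorem arch_natCast {v : AbsoluteValue K ℝ} (hv : v ∈ archAbsVal (K := K)) (n : ℕ) :
    v (n : K) = n := by
  obtain ⟨w, hw⟩ := (isInfinitePlace_iff v).1 (mem_multisetInfinitePlace.1 hv)
  rw [← hw]
  change w (n : K) = n
  rw [← InfinitePlace.norm_embedding_eq]
  simp

variable (K) in
/-- The elements `x` such that `D ^ e * x` is integral for some `e`. -/
def DInt (D : ℕ) : Subring K where
  carrier := {x | ∃ e : ℕ, IsIntegral ℤ ((D : K) ^ e * x)}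
  mul_mem' := by
    rintro x y ⟨e, he⟩ ⟨e', he'⟩
    refine ⟨e + e', ?_⟩
    have := he.mul he'
    have e1 : (D : K) ^ (e + e') * (x * y) = (D : K) ^ e * x * ((D : K) ^ e' * y) := by ring
    rw [e1]
    exact this
  one_mem' := ⟨0, by simpa using isIntegral_one⟩
  add_mem' := by
    rintro x y ⟨e, he⟩ ⟨e', he'⟩
    refine ⟨e + e', ?_⟩
    have hD : ∀ n : ℕ, IsIntegral ℤ ((D : K) ^ n) := fun n => by
      have : IsIntegral ℤ (D : K) := isIntegral_natCast D
      exact this.pow n
    have := ((hD e').mul he).add ((hD e).mul he')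
    have e1 : (D : K) ^ (e + e') * (x + y) =
        (D : K) ^ e' * ((D : K) ^ e * x) + (D : K) ^ e * ((D : K) ^ e' * y) := by ring
    rw [e1]
    exact this
  zero_mem' := ⟨0, by simpa using isIntegral_zero⟩
  neg_mem' := by
    rintro x ⟨e, he⟩
    exact ⟨e, by simpa using he.neg⟩

omit [NumberField K] in
theorem mem_DInt {D : ℕ} {x : K} : x ∈ DInt K D ↔ ∃ e : ℕ, IsIntegral ℤ ((D : K) ^ e * x) :=
  Iff.rfl

omit [NumberField K] in
theorem DInt_of_isIntegral (D : ℕ) {x : K} (hx : IsIntegral ℤ x) : x ∈ DInt K D :=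
  ⟨0, by simpa using hx⟩

omit [NumberField K] in
theorem DInt_mono {D E : ℕ} (h : D ∣ E) {x : K} (hx : x ∈ DInt K D) : x ∈ DInt K E := by
  obtain ⟨e, he⟩ := hx
  obtain ⟨c, rfl⟩ := h
  refine ⟨e, ?_⟩
  have hc : IsIntegral ℤ ((c : K) ^ e) := by
    have : IsIntegral ℤ (c : K) := isIntegral_natCast c
    exact this.pow e
  have := hc.mul he
  have e1 : ((D * c : ℕ) : K) ^ e * x = (c : K) ^ e * ((D : K) ^ e * x) := by push_cast; ring
  rw [e1]
  exact this

theorem DInt_finite (s : Finset K) : ∃ D : ℕ, D ≠ 0 ∧ ∀ x ∈ s, x ∈ DInt K D := by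
  classical
  induction s using Finset.induction_on with
  | empty => exact ⟨1, one_ne_zero, by simp⟩
  | insert a s _ ih =>
    obtain ⟨D, hD, h⟩ := ih
    obtain ⟨n, hn, hn', hna⟩ := exists_nat_le_mulHeight₁ a
    refine ⟨D * n, mul_ne_zero hD hn, ?_⟩
    intro x hx
    rcases Finset.mem_insert.1 hx with rfl | hx
    · exact DInt_mono (Dvd.intro_left D rfl) ⟨1, by simpa using hna⟩
    · exact DInt_mono (Dvd.intro n rfl) (h x hx)

theorem nonarch_DInt_le (v : nonarchAbsVal (K := K)) {D : ℕ} (hv : v.val (D : K) = 1) {x : K}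
    (hx : x ∈ DInt K D) : v.val x ≤ 1 := by
  obtain ⟨e, he⟩ := hx
  have := nonarch_int_le v he
  rwa [map_mul, map_pow, hv, one_pow, one_mul] at this

theorem nonarch_coprime (v : nonarchAbsVal (K := K)) {D p : ℕ} (hD : v.val (D : K) ≠ 1)
    (hp : Nat.Coprime p D) : v.val (p : K) = 1 := by
  have h1 : v.val (D : K) ≤ 1 := nonarch_int_le v (isIntegral_natCast _)
  have h2 : v.val (p : K) ≤ 1 := nonarch_int_le v (isIntegral_natCast _)
  have h3 : v.val (D : K) < 1 := lt_of_le_of_ne h1 hD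
  obtain ⟨a, b, hab⟩ := (Nat.isCoprime_iff_coprime.2 hp)
  have h4 : (a : K) * (p : K) + (b : K) * (D : K) = 1 := by exact_mod_cast congrArg (Int.cast : ℤ → K) hab
  have ha : v.val (a : K) ≤ 1 := nonarch_int_le v (isIntegral_intCast _)
  have hb : v.val (b : K) ≤ 1 := nonarch_int_le v (isIntegral_intCast _)
  have h5 := (isNonarchimedean _ v.2) ((a : K) * (p : K)) ((b : K) * (D : K))
  rw [h4, map_one, map_mul, map_mul] at h5
  have h6 : v.val (b : K) * v.val (D : K) < 1 := by
    have := v.val.nonneg (b : K)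
    nlinarith [v.val.nonneg (D : K)]
  rcases le_max_iff.1 h5 with h7 | h7
  · have := v.val.nonneg (p : K)
    have := v.val.nonneg (a : K)
    nlinarith
  · linarith

/-- The quotient of the ring of `D`-integral elements by a number prime to `D` is finite. -/
theorem finite_quot (D p : ℕ) (hp : Nat.Coprime p D) (hp0 : p ≠ 0) :
    Finite (DInt K D ⧸ Ideal.span {(p : DInt K D)}) := by
  let φ : 𝓞 K →+* DInt K D :=
    { toFun := fun x => ⟨(x : K), DInt_of_isIntegral D x.2⟩
      map_one' := rfl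
      map_mul' := fun _ _ => rfl
      map_zero' := rfl
      map_add' := fun _ _ => rfl }
  let ψ : 𝓞 K →+* DInt K D ⧸ Ideal.span {(p : DInt K D)} := (Ideal.Quotient.mk _).comp φ
  have hψ : Function.Surjective ψ := by
    intro y
    obtain ⟨x, rfl⟩ := Ideal.Quotient.mk_surjective y
    obtain ⟨e, he⟩ := x.2
    have hc : IsCoprime ((p : ℤ)) ((D : ℤ) ^ e) := (Nat.isCoprime_iff_coprime.2 hp).pow_right
    obtain ⟨a, b, hab⟩ := hc
    refine ⟨(b : 𝓞 K) * ⟨(D : K) ^ e * x, he⟩, ?_⟩
    rw [RingHom.comp_apply, Ideal.Quotient.eq, Ideal.mem_span_singleton]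
    refine ⟨-(a : DInt K D) * x, ?_⟩
    apply Subtype.ext
    have h4 : (a : K) * (p : K) + (b : K) * (D : K) ^ e = 1 := by
      exact_mod_cast congrArg (Int.cast : ℤ → K) hab
    simp [φ]
    linear_combination (x : K) * h4
  have hker : Ideal.span {(p : 𝓞 K)} ≤ RingHom.ker ψ := by
    rw [Ideal.span_singleton_le_iff_mem, RingHom.mem_ker, RingHom.comp_apply, map_natCast,
      Ideal.Quotient.eq_zero_iff_mem]
    exact Ideal.mem_span_singleton_self _
  have hfin : Finite (𝓞 K ⧸ Ideal.span {(p : 𝓞 K)}) := by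
    apply Ideal.finiteQuotientOfFreeOfNeBot
    rw [Ne, Ideal.span_singleton_eq_bot]
    exact_mod_cast hp0
  exact Finite.of_surjective (Ideal.Quotient.lift _ ψ fun a ha => hker ha)
    (Ideal.Quotient.lift_surjective_of_surjective _ _ hψ)

theorem mulHeight_natCast_ge (n : ℕ) : (n : ℝ) ^ totalWeight K ≤ mulHeight₁ (n : K) := by
  rw [Height.mulHeight₁_eq]
  have h1 : (n : ℝ) ^ totalWeight K ≤
      ((archAbsVal (K := K)).map fun v => max (v (n : K)) 1).prod := by
    calc (n : ℝ) ^ totalWeight K = ((archAbsVal (K := K)).map fun _ => (n : ℝ)).prod := by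
          simp [totalWeight]
      _ ≤ _ := Multiset.prod_map_le_prod_map₀ _ _ (fun v _ => by positivity) fun v hv => by
          rw [arch_natCast hv]; exact le_max_left _ _
  have h2 := nonarch_prod_ge_one (n : K)
  have h3 := arch_prod_ge_one (n : K)
  nlinarith

/-- The key inequality: a nonzero `D`-integral multiple of `p ^ k` has height at least
`p ^ (k w)`. -/
theorem height_ge (D p k : ℕ) (hp : Nat.Coprime p D) (hp0 : p ≠ 0) (u w : K) (hu : u ≠ 0)
    (hw : w ∈ DInt K D) (h : u = (p : K) ^ k * w) :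
    ((p : ℝ) ^ k) ^ totalWeight K ≤ mulHeight₁ u := by
  have h1 : mulHeight₁ ((p : K) ^ k) ≤ mulHeight₁ u := by
    refine mulHeight_ge_of_dvd (D : K) _ u w hu h (fun v hv => nonarch_DInt_le v hv hw)
      (fun v hv => ?_) fun v hv => ?_
    · rw [map_pow, nonarch_coprime v hv hp, one_pow]
    · rw [map_inv₀, map_pow, arch_natCast hv]
      refine inv_le_one_of_one_le₀ (one_le_pow₀ ?_)
      exact_mod_cast Nat.one_le_iff_ne_zero.2 hp0
  refine le_trans ?_ h1
  have := mulHeight_natCast_ge (K := K) (p ^ k)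
  push_cast at this
  exact this

end Pool.Agent.H85.HG
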