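import Mathlib

/-!
Sequences with vanishing finite differences on large windows are polynomial; quasi-polynomial
orbits of polynomial maps are algebraically small.
-/

set_option autoImplicit false

open Finset

namespace Pool.Agent.H85.HG

section window

variable {G : Type*} [AddCommGroup G]

/-- If `Δ^k y` vanishes on the window `[k, 2k]` for all `k ≥ k₁ ≥ 1`, then `Δ^{k₁} y` vanishes
from `k₁` on. -/
theorem window (y : ℕ → G) (k₁ : ℕ) (hk₁ : 1 ≤ k₁)
    (h : ∀ k, k₁ ≤ k → ∀ i, k ≤ i → i ≤ 2 * k → (fwdDiff 1)^[k] y i = 0) :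
    ∀ i, k₁ ≤ i → (fwdDiff 1)^[k₁] y i = 0 := by
  intro i
  induction i using Nat.strong_induction_on with
  | _ M ih =>
    intro hM
    by_cases hM2 : M ≤ 2 * k₁
    · exact h k₁ le_rfl M hM hM2
    push Not at hM2
    set k := (M + k₁) / 2 with hk
    obtain ⟨j, hj⟩ : ∃ j, k = j + k₁ := Nat.exists_eq_add_of_le' (by omega)
    have h1 := h k (by omega) (M - j) (by omega) (by omega)
    rw [hj, Function.iterate_add_apply, fwdDiff_iter_eq_sum_shift, Finset.sum_range_succ] at h1
    have h2 : ∑ x ∈ range j, ((-1 : ℤ) ^ (j - x) * (j.choose x : ℤ)) •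
        (fwdDiff 1)^[k₁] y (M - j + x • 1) = 0 := by
      refine Finset.sum_eq_zero fun l hl => ?_
      rw [Finset.mem_range] at hl
      have : (fwdDiff 1)^[k₁] y (M - j + l • 1) = 0 := by
        refine ih _ ?_ ?_
        · simp; omega
        · simp; omega
      rw [this, smul_zero]
    rw [h2, zero_add, Nat.sub_self, pow_zero, Nat.choose_self] at h1
    simpa [show M - j + j = M by omega] using h1

end window

section poly

variable {K : Type*} [Field K] [CharZero K]

open Polynomial in
/-- A sequence whose `k₁`-th differences vanish from `k₁` on is polynomial from `k₁` on. -/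
theorem poly_of_fwdDiff (y : ℕ → K) (k₁ : ℕ)
    (h : ∀ i, k₁ ≤ i → (fwdDiff 1)^[k₁] y i = 0) :
    ∃ P : K[X], ∀ m : ℕ, y (k₁ + m) = P.eval (m : K) := by
  refine ⟨∑ l ∈ range k₁, C ((fwdDiff 1)^[l] y k₁) * (C ((l.factorial : K)⁻¹) *
    descPochhammer K l), fun m => ?_⟩
  have h1 := shift_eq_sum_fwdDiff_iter 1 y m k₁
  rw [smul_eq_mul, mul_one] at h1
  rw [h1, eval_finsetSum]
  have h0 : ∀ l, k₁ ≤ l → (fwdDiff 1)^[l] y k₁ = 0 := by
    intro l hl
    obtain ⟨r, rfl⟩ := Nat.exists_eq_add_of_le' hl
    rw [Function.iterate_add_apply, fwdDiff_iter_eq_sum_shift]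
    refine Finset.sum_eq_zero fun x _ => ?_
    rw [h _ (by omega), smul_zero]
  have e1 : ∀ l, (C ((fwdDiff 1)^[l] y k₁) * (C ((l.factorial : K)⁻¹) *
      descPochhammer K l)).eval (m : K) = m.choose l • (fwdDiff 1)^[l] y k₁ := by
    intro l
    have hl : (l.factorial : K) ≠ 0 := by exact_mod_cast l.factorial_ne_zero
    rw [eval_mul, eval_mul, eval_C, eval_C, descPochhammer_eval_eq_descFactorial,
      Nat.descFactorial_eq_factorial_mul_choose, Nat.cast_mul, inv_mul_cancel_left₀ hl,
      nsmul_eq_mul, mul_comm]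
  simp only [e1]
  rcases le_total (m + 1) k₁ with hm | hm
  · refine Finset.sum_subset (by simpa using hm) fun l _ hl => ?_
    rw [Finset.mem_range, not_lt] at hl
    rw [Nat.choose_eq_zero_of_lt (by omega), zero_smul]
  · refine (Finset.sum_subset (by simpa using hm) fun l _ hl => ?_).symm
    rw [Finset.mem_range, not_lt] at hl
    rw [h0 l hl, smul_zero]

open Polynomial in
omit [CharZero K] in
theorem eval_aeval_poly {σ : Type*} (Q : σ → K[X]) (F : MvPolynomial σ K) (c : K) :
    (MvPolynomial.aeval Q F).eval c = MvPolynomial.eval (fun s => (Q s).eval c) F := by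
  induction F using MvPolynomial.induction_on with
  | C a => simp
  | add u v hu hv => simp [hu, hv]
  | mul_X u i hu => simp [hu]

open Polynomial in
omit [CharZero K] in
/-- The other residue classes of a quasi-polynomial orbit. -/
theorem residues {σ : Type*} (f : σ → MvPolynomial σ K) (x : ℕ → σ → K)
    (hx : ∀ n s, x (n + 1) s = MvPolynomial.eval (x n) (f s)) (n₀ b : ℕ) (P₀ : σ → K[X])
    (h : ∀ m s, x (n₀ + b * m) s = (P₀ s).eval (m : K)) :
    ∃ P : ℕ → σ → K[X], ∀ a m s, x (n₀ + a + b * m) s = (P a s).eval (m : K) := by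
  refine ⟨fun a => Nat.rec P₀ (fun _ Q s => MvPolynomial.aeval Q (f s)) a, fun a => ?_⟩
  induction a with
  | zero => intro m s; exact h m s
  | succ a ih =>
    intro m s
    rw [show n₀ + (a + 1) + b * m = (n₀ + a + b * m) + 1 by ring, hx]
    have h1 : x (n₀ + a + b * m) = fun s => Polynomial.eval (m : K)
        ((Nat.rec P₀ (fun _ Q s => MvPolynomial.aeval Q (f s)) a : σ → K[X]) s) := by
      funext t; exact ih m t
    rw [h1]
    exact (eval_aeval_poly _ _ _).symm

open Polynomial in
omit [CharZero K] in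
/-- Two polynomials in one variable are algebraically dependent. -/
theorem exists_relation (A B : K[X]) :
    ∃ Q : MvPolynomial (Fin 2) K, Q ≠ 0 ∧ MvPolynomial.aeval ![A, B] Q = 0 := by
  by_contra hcon
  push Not at hcon
  have h1 : AlgebraicIndependent K ![A, B] := by
    rw [algebraicIndependent_iff]
    intro p hp
    by_contra hp0
    exact hcon p hp0 hp
  have h2 := h1.lift_cardinalMk_le_trdeg
  rw [Polynomial.trdeg_of_isDomain] at h2
  simp at h2

open Polynomial in
omit [CharZero K] in
/-- Two regular functions are algebraically dependent along a quasi-polynomial orbit. -/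
theorem exists_relation_orbit {σ : Type*} (x : ℕ → σ → K) (n₀ b : ℕ) (hb : 0 < b)
    (P : ℕ → σ → K[X]) (hP : ∀ a m s, x (n₀ + a + b * m) s = (P a s).eval (m : K))
    (u v : MvPolynomial σ K) :
    ∃ Q : MvPolynomial (Fin 2) K, Q ≠ 0 ∧
      ∀ n, MvPolynomial.eval ![MvPolynomial.eval (x n) u, MvPolynomial.eval (x n) v] Q = 0 := by
  classical
  choose Q hQ0 hQ using fun a => exists_relation (MvPolynomial.aeval (P a) u)
    (MvPolynomial.aeval (P a) v)
  refine ⟨(∏ n ∈ range n₀, (MvPolynomial.X 0 - MvPolynomial.C (MvPolynomial.eval (x n) u))) *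
    ∏ a ∈ range b, Q a, ?_, fun n => ?_⟩
  · refine mul_ne_zero (Finset.prod_ne_zero_iff.2 fun n _ => ?_)
      (Finset.prod_ne_zero_iff.2 fun a _ => hQ0 a)
    intro h0
    have := congrArg (MvPolynomial.eval ![MvPolynomial.eval (x n) u + 1, 0]) h0
    simp at this
  · rw [map_mul, map_prod, map_prod]
    rcases lt_or_ge n n₀ with hn | hn
    · rw [Finset.prod_eq_zero (Finset.mem_range.2 hn) (by simp), zero_mul]
    · obtain ⟨r, rfl⟩ := Nat.exists_eq_add_of_le hn
      have h1 : x (n₀ + r) = fun s => (P (r % b) s).eval ((r / b : ℕ) : K) := by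
        funext s
        rw [← hP, add_assoc, Nat.mod_add_div]
      refine mul_eq_zero_of_right _ (Finset.prod_eq_zero
        (Finset.mem_range.2 (Nat.mod_lt r hb)) ?_)
      have h2 := congrArg (Polynomial.eval ((r / b : ℕ) : K)) (hQ (r % b))
      rw [eval_aeval_poly, eval_zero] at h2
      rw [← h2]
      congr 2
      funext i
      fin_cases i
      · simp [eval_aeval_poly, h1]
      · simp [eval_aeval_poly, h1]

end poly

end Pool.Agent.H85.HG
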