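import Pool.Agent.H85.HG.DInt
import Pool.Agent.H85.HG.Poly

/-!
The height gap for orbits of polynomial maps.
-/

set_option autoImplicit false

open Height Height.AdmissibleAbsValues NumberField MvPolynomial

namespace Pool.Agent.H85.HG

section lift

variable {σ A : Type*} [CommRing A] (S : Subring A)

theorem exists_lift (f : MvPolynomial σ A) (h : ∀ m, coeff m f ∈ S) :
    ∃ g : MvPolynomial σ S, map S.subtype g = f := by
  refine ⟨∑ m ∈ f.support, monomial m ⟨coeff m f, h m⟩, ?_⟩
  rw [map_sum]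
  conv_rhs => rw [← support_sum_monomial_coeff f]
  refine Finset.sum_congr rfl fun m _ => ?_
  rw [map_monomial]
  rfl

theorem coe_eval (g : MvPolynomial σ S) (z : σ → S) :
    ((eval z g : S) : A) = eval (fun i => (z i : A)) (map S.subtype g) := by
  rw [eval_map]
  change S.subtype (eval z g) = _
  rw [eval₂_comp]
  rfl

theorem coe_fwdDiff (y : ℕ → S) (k i : ℕ) :
    (((fwdDiff 1)^[k] y i : S) : A) = (fwdDiff 1)^[k] (fun j => (y j : A)) i := by
  induction k generalizing y with
  | zero => rfl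
  | succ k ih =>
    rw [Function.iterate_succ_apply, Function.iterate_succ_apply, ih]
    congr 1

end lift

variable {K : Type*} [Field K] [NumberField K]

theorem log_ineq (p b n₁ k w e : ℕ) (hp : 3 ≤ p) (hb : 0 < b) (hw : 0 < w) (c B : ℝ)
    (hc : c = w * Real.log (p / 2) / (4 * b * (w + e))) (hB : B = Real.exp (c * (n₁ + b * (3 * k))))
    (hk : n₁ < k) : ((2 : ℝ) ^ k * B) ^ w * B ^ e < ((p : ℝ) ^ k) ^ w := by
  have hp' : (3 : ℝ) ≤ p := by exact_mod_cast hp
  have hb' : (1 : ℝ) ≤ b := by exact_mod_cast hb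
  have hw' : (1 : ℝ) ≤ w := by exact_mod_cast hw
  have he' : (0 : ℝ) ≤ e := by positivity
  have hk' : (n₁ : ℝ) < k := by exact_mod_cast hk
  have hn₁ : (0 : ℝ) ≤ n₁ := by positivity
  have hl : 0 < Real.log (p / 2) := Real.log_pos (by linarith)
  have hl2 : Real.log (p / 2) = Real.log p - Real.log 2 :=
    Real.log_div (by linarith) (by norm_num)
  have hB0 : 0 < B := by rw [hB]; exact Real.exp_pos _
  rw [← Real.log_lt_log_iff (by positivity) (by positivity), Real.log_mul (by positivity)
    (by positivity), Real.log_pow, Real.log_pow, Real.log_mul (by positivity) (by positivity),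
    Real.log_pow, Real.log_pow, Real.log_pow]
  have hlB : Real.log B = c * (n₁ + b * (3 * k)) := by rw [hB, Real.log_exp]
  rw [hlB]
  have hc' : c * (4 * b * (w + e)) = w * Real.log (p / 2) := by
    rw [hc]; field_simp
  have h1 : (w + e) * (c * (n₁ + b * (3 * k))) < w * k * Real.log (p / 2) := by
    have h2 : (w + e) * (c * (n₁ + b * (3 * k))) * (4 * b) =
        (w * Real.log (p / 2)) * (n₁ + b * (3 * k)) := by rw [← hc']; ring
    have h3 : (n₁ + b * (3 * k) : ℝ) < k * (4 * b) := by nlinarith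
    have h4 : 0 < w * Real.log (p / 2) := by positivity
    have h5 : (w + e) * (c * (n₁ + b * (3 * k))) * (4 * b) < (w * k * Real.log (p / 2)) * (4 * b) := by
      rw [h2]; nlinarith
    exact lt_of_mul_lt_mul_right h5 (by positivity)
  rw [hl2] at h1
  nlinarith

/-- HEIGHT GAP. For a polynomial self-map `f` of affine space over a number field and `D ≠ 0`
there is `c > 0` such that each orbit of a `D`-integral point with `h(x_n) ≤ c n` for all large `n`
is eventually quasi-polynomial. -/
theorem gap {σ : Type*} [Finite σ] (f : σ → MvPolynomial σ K) (D : ℕ) (hD : D ≠ 0) :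
    ∃ c : ℝ, 0 < c ∧ ∀ x : ℕ → σ → K, (∀ n s, x (n + 1) s = eval (x n) (f s)) →
      (∀ s, x 0 s ∈ DInt K D) → (∃ N : ℕ, ∀ n ≥ N, ∀ s, logHeight₁ (x n s) ≤ c * n) →
      ∃ (n₀ b : ℕ) (P : ℕ → σ → Polynomial K), 0 < b ∧
        ∀ a m s, x (n₀ + a + b * m) s = (P a s).eval (m : K) := by
  classical
  have := Fintype.ofFinite σ
  -- denominators
  obtain ⟨D₁, hD₁, hcoef⟩ := DInt_finite (K := K)
    (Finset.univ.biUnion fun s => (f s).support.image fun m => coeff m (f s))
  have hcoef1 : ∀ s m, coeff m (f s) ∈ DInt K D₁ := by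
    intro s m
    by_cases hm : m ∈ (f s).support
    · exact hcoef _ (Finset.mem_biUnion.2 ⟨s, Finset.mem_univ s, Finset.mem_image_of_mem _ hm⟩)
    · rw [notMem_support_iff.1 hm]; exact zero_mem _
  set E := D * D₁ with hE
  have hE0 : E ≠ 0 := mul_ne_zero hD hD₁
  have hcoef2 : ∀ s m, coeff m (f s) ∈ DInt K E := fun s m =>
    DInt_mono (Dvd.intro_left D rfl) (hcoef1 s m)
  choose g hg using fun s => exists_lift (DInt K E) (f s) (hcoef2 s)
  -- the prime
  obtain ⟨p, hpE, hp⟩ := Nat.exists_infinite_primes (E + 3)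
  have hcop : Nat.Coprime p E := by
    rw [Nat.Prime.coprime_iff_not_dvd hp]
    exact Nat.not_dvd_of_pos_of_lt (Nat.pos_of_ne_zero hE0) (by omega)
  have hfinq : Finite (DInt K E ⧸ Ideal.span {(p : DInt K E)}) := finite_quot E p hcop hp.ne_zero
  obtain ⟨b, hb, hcore⟩ := core (p : DInt K E) g
  set w := totalWeight K with hw
  set e := badCard (E : K) with he
  have hw0 : 0 < w := totalWeight_pos K
  have hp3 : 3 ≤ p := by omega
  have hlog : 0 < Real.log (p / 2) := by
    apply Real.log_pos
    have : (3 : ℝ) ≤ p := by exact_mod_cast hp3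
    linarith
  refine ⟨w * Real.log (p / 2) / (4 * b * (w + e)), by positivity, fun x hx hx0 hxN => ?_⟩
  obtain ⟨N, hN⟩ := hxN
  set c : ℝ := w * Real.log (p / 2) / (4 * b * (w + e)) with hc
  have hc0 : 0 < c := by positivity
  -- the orbit in the ring of `E`-integers
  let xR : ℕ → σ → DInt K E := fun n =>
    Nat.rec (fun s => ⟨x 0 s, DInt_mono (Dvd.intro D₁ rfl) (hx0 s)⟩) (fun _ z s => eval z (g s)) n
  have hxR : ∀ n s, xR (n + 1) s = eval (xR n) (g s) := fun n s => rfl
  have hxK : ∀ (n : ℕ) (s : σ), (Subtype.val (xR n s)) = x n s := by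
    intro n
    induction n with
    | zero => intro s; rfl
    | succ n ih =>
      intro s
      rw [hxR, coe_eval, hg, hx]
      congr 2
      funext t
      exact ih t
  obtain ⟨n₁, hn₁⟩ := hcore xR hxR
  have hzero : ∀ s k, N + n₁ + 1 ≤ k → ∀ i, k ≤ i → i ≤ 2 * k →
      (fwdDiff 1)^[k] (fun j => x (n₁ + b * j) s) i = 0 := by
    intro s k hk i hki hi
    by_contra hne
    obtain ⟨w', hw'⟩ := hn₁ k i s hki
    have h1 : (fwdDiff 1)^[k] (fun j => x (n₁ + b * j) s) i = (p : K) ^ k * (w' : K) := by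
      have h2 := congrArg (Subtype.val) hw'
      rw [coe_fwdDiff] at h2
      simp only [hxK] at h2
      rw [h2]
      simp
    have h3 := height_ge E p k hcop hp.ne_zero _ (w' : K) hne w'.2 h1
    set B : ℝ := Real.exp (c * (n₁ + b * (3 * k))) with hB
    have h4 := mulHeight_fwdDiff_le (E : K) (by exact_mod_cast hE0)
      (fun j => x (n₁ + b * j) s) (fun v n hv => by
        simp only [← hxK]
        exact nonarch_DInt_le v hv (xR _ s).2) B k i (fun j hj => by
        have h5 := hN (n₁ + b * (i + j)) (by nlinarith) s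
        rw [logHeight₁_eq_log_mulHeight₁] at h5
        rw [← Real.exp_log (mulHeight₁_pos (x (n₁ + b * (i + j)) s)), hB]
        refine Real.exp_le_exp.2 (h5.trans ?_)
        refine mul_le_mul_of_nonneg_left ?_ hc0.le
        have h6 : n₁ + b * (i + j) ≤ n₁ + b * (3 * k) := by
          have : i + j ≤ 3 * k := by omega
          nlinarith
        exact_mod_cast h6)
    have h7 := log_ineq p b n₁ k w e hp3 hb hw0 c B hc hB (by omega)
    exact absurd (h3.trans h4) (not_le.2 h7)
  set k₁ := N + n₁ + 1 with hk₁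
  choose P₀ hP₀ using fun s => poly_of_fwdDiff (fun j => x (n₁ + b * j) s) k₁
    (window _ k₁ (by omega) (hzero s))
  obtain ⟨P, hP⟩ := residues f x hx (n₁ + b * k₁) b P₀ (fun m s => by
    rw [← hP₀ s m]
    show x (n₁ + b * k₁ + b * m) s = x (n₁ + b * (k₁ + m)) s
    congr 1
    ring)
  exact ⟨n₁ + b * k₁, b, P, hb, hP⟩

end Pool.Agent.H85.HG
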