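import Pool.Agent.H85.HG.Bihom
import Pool.Agent.H85.HG.Analysis

/-!
Arithmetic degrees of skew products.
-/

set_option autoImplicit false

open Height Height.AdmissibleAbsValues MvPolynomial Filter Topology

namespace Pool.Agent.H85.HG

section homog

variable {A : Type*} [CommRing A]

theorem exists_homog_relation {τ ι : Type*} [Fintype ι] (P : ι → MvPolynomial τ A) (d M : ℕ)
    (hP : ∀ i, (P i).IsHomogeneous d) (F : MvPolynomial τ A) (hF : F.IsHomogeneous M)
    (hdM : d ≤ M) (hmem : F ∈ Ideal.span (Set.range P)) :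
    ∃ q : ι → MvPolynomial τ A, (∀ i, (q i).IsHomogeneous (M - d)) ∧ ∑ i, q i * P i = F := by
  classical
  obtain ⟨c, hc⟩ := (Ideal.mem_span_range_iff_exists_fun (v := P)).1 hmem
  refine ⟨fun i => homogeneousComponent (M - d) (c i),
    fun i => homogeneousComponent_isHomogeneous _ _, ?_⟩
  have h1 : homogeneousComponent M F = F := by
    rw [homogeneousComponent_of_mem hF, if_pos rfl]
  have h2 : ∀ i, homogeneousComponent M (c i * P i) = homogeneousComponent (M - d) (c i) * P i := by
    intro i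
    let _ : GradedAlgebra (homogeneousSubmodule τ A) := MvPolynomial.gradedAlgebra
    have h3 := DirectSum.coe_decompose_mul_of_right_mem_of_le (homogeneousSubmodule τ A)
      (a := c i) (n := M) ((mem_homogeneousSubmodule d (P i)).2 (hP i)) hdM
    have h4 : ∀ (φ : MvPolynomial τ A) (i : ℕ),
        ((DirectSum.decompose (homogeneousSubmodule τ A) φ) i : MvPolynomial τ A) =
          homogeneousComponent i φ := fun φ i => decomposition.decompose'_apply φ i
    rw [h4, h4] at h3
    exact h3
  calc ∑ i, homogeneousComponent (M - d) (c i) * P i = ∑ i, homogeneousComponent M (c i * P i) :=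
        Finset.sum_congr rfl fun i _ => (h2 i).symm
    _ = homogeneousComponent M (∑ i, c i * P i) := (map_sum _ _ _).symm
    _ = F := by rw [hc, h1]

end homog

/-- The arithmetic degree of a sequence of heights: the limit of `max(h_n, 1)^(1/n)`. -/
def HasArithDeg (h : ℕ → ℝ) (α : ℝ) : Prop :=
  Tendsto (fun n : ℕ => (max (h n) 1) ^ ((n : ℝ)⁻¹)) atTop (𝓝 α)

variable {K : Type*} [Field K] [AdmissibleAbsValues K]

/-- Two-sided height estimate on the fibres of a skew product. -/
theorem fibre_height {κ τ : Type*} [Finite κ] [Finite τ] (d : ℕ)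
    (P : τ → MvPolynomial τ (MvPolynomial κ K)) (hP : ∀ i, (P i).IsHomogeneous d)
    (ρ : MvPolynomial κ K) (M : ℕ) (hρ : ∀ j, C ρ * X j ^ M ∈ Ideal.span (Set.range P)) :
    ∃ C E : ℝ, 0 ≤ C ∧ 0 ≤ E ∧ ∀ (x : κ → K) (y : τ → K),
      logHeight (fun i => ev (P i) x y) ≤ C + E * affHeight x + d * logHeight y ∧
      (eval x ρ ≠ 0 →
        d * logHeight y ≤ C + E * affHeight x + logHeight (fun i => ev (P i) x y)) := by
  classical
  have := Fintype.ofFinite τ
  obtain ⟨C₁, E₁, hC₁, hE₁, h1⟩ := logHeight_ev_le (K := K) d P hP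
  -- without loss of generality `M ≥ d`
  have hρ' : ∀ j, C ρ * X j ^ (M + d) ∈ Ideal.span (Set.range P) := fun j => by
    rw [pow_add, ← mul_assoc]
    exact Ideal.mul_mem_right _ _ (hρ j)
  choose q hq hqs using fun j => exists_homog_relation P d (M + d) hP (C ρ * X j ^ (M + d))
    (by
      have := (isHomogeneous_C τ ρ).mul ((isHomogeneous_X (MvPolynomial κ K) j).pow (M + d))
      simpa using this) (by omega) (hρ' j)
  obtain ⟨C₂, E₂, hC₂, hE₂, h2⟩ := logHeight_ev_ge (K := K) d M P ρ (fun a => q a.1 a.2)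
    (fun a => by simpa using hq a.1 a.2) hqs
  refine ⟨C₁ + C₂, E₁ + E₂, by positivity, by positivity, fun x y => ⟨?_, fun hx => ?_⟩⟩
  · have h3 := h1 x y
    have h4 := affHeight_nonneg x
    nlinarith
  · have h3 := h2 x y hx
    have h4 := affHeight_nonneg x
    nlinarith

/-- ARITHMETIC DEGREES OF SKEW PRODUCTS. `P` is a family of forms of degree `d ≥ 1` in `y` with
coefficients in `K[x]` without common zero over `K(x)`; if the arithmetic degree of the base orbit
exists, then that of the orbit in `A^κ × P^τ` exists, and is the former or `d`. -/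
theorem skew {κ τ : Type*} [Finite κ] [Finite τ] (d : ℕ) (hd : 1 ≤ d)
    (P : τ → MvPolynomial τ (MvPolynomial κ K)) (hP : ∀ i, (P i).IsHomogeneous d)
    (ρ : MvPolynomial κ K) (M : ℕ) (hρ : ∀ j, C ρ * X j ^ M ∈ Ideal.span (Set.range P))
    (x : ℕ → κ → K) (y : ℕ → τ → K)
    (hy : ∀ n, ∃ c : K, c ≠ 0 ∧ y (n + 1) = c • fun i => ev (P i) (x n) (y n))
    (hx : ∃ n₀, ∀ n ≥ n₀, eval (x n) ρ ≠ 0) (α : ℝ)
    (hα : HasArithDeg (fun n => affHeight (x n)) α) :
    HasArithDeg (fun n => affHeight (x n) + logHeight (y n)) α ∨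
      HasArithDeg (fun n => affHeight (x n) + logHeight (y n)) d := by
  obtain ⟨C, E, hC, hE, h⟩ := fibre_height (K := K) d P hP ρ M hρ
  obtain ⟨n₀, hn₀⟩ := hx
  have hstep : ∀ n, logHeight (y (n + 1)) = logHeight (fun i => ev (P i) (x n) (y n)) := by
    intro n
    obtain ⟨c, hc, h1⟩ := hy n
    rw [h1, logHeight_smul_eq_logHeight _ hc]
  have hx0 : ∀ n, 0 ≤ affHeight (x n) := fun n => affHeight_nonneg _
  have hy0 : ∀ n, 0 ≤ logHeight (y n) := fun n => logHeight_nonneg _
  refine growth_limit (fun n => logHeight (y n)) (fun n => affHeight (x n)) _ d (C + E) n₀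
    (by exact_mod_cast hd) (by positivity) hy0 hx0 ?_ ?_ ?_ ?_ ?_ α hα
  · intro n _
    have h1 := (h (x n) (y n)).1
    have h2 := hx0 n
    rw [hstep]
    nlinarith
  · intro n hn
    have h1 := (h (x n) (y n)).2 (hn₀ n hn)
    have h2 := hx0 n
    rw [hstep]
    nlinarith
  · intro n; linarith [hx0 n]
  · intro n; linarith [hy0 n]
  · intro n; linarith

section line

open Polynomial in
/-- The value of the polynomial `R ∈ K[x][y]` at `(x, y)`. -/
noncomputable def val {κ : Type*} (R : (MvPolynomial κ K)[X]) (x : κ → K) (y : K) : K :=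
  (R.map (MvPolynomial.eval x)).eval y

theorem logHeight_one_cons (z : K) : logHeight ![1, z] = logHeight₁ z := by
  rw [logHeight_swap, logHeight₁_eq_logHeight]

open Polynomial in
/-- Two-sided height estimate for `R(x, y)`, `R ∈ K[x][y]`. -/
theorem line_height {κ : Type*} [Finite κ] (R : (MvPolynomial κ K)[X]) :
    ∃ C E : ℝ, 0 ≤ C ∧ 0 ≤ E ∧ ∀ (x : κ → K) (y : K),
      logHeight₁ (val R x y) ≤ C + E * affHeight x + R.natDegree * logHeight₁ y ∧
      (MvPolynomial.eval x R.leadingCoeff ≠ 0 →
        R.natDegree * logHeight₁ y ≤ C + E * affHeight x + logHeight₁ (val R x y)) := by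
  classical
  set d := R.natDegree with hd
  let S : MvPolynomial (Fin 2) (MvPolynomial κ K) :=
    ∑ i ∈ Finset.range d, MvPolynomial.C (R.coeff i) * MvPolynomial.X 1 ^ i *
      MvPolynomial.X 0 ^ (d - 1 - i)
  let P : Fin 2 → MvPolynomial (Fin 2) (MvPolynomial κ K) :=
    ![MvPolynomial.X 0 ^ d, MvPolynomial.C R.leadingCoeff * MvPolynomial.X 1 ^ d +
      MvPolynomial.X 0 * S]
  have hP : ∀ i, (P i).IsHomogeneous d := by
    intro i
    fin_cases i
    · simpa [P] using (MvPolynomial.isHomogeneous_X (MvPolynomial κ K) (0 : Fin 2)).pow d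
    · refine MvPolynomial.IsHomogeneous.add ?_ ?_
      · simpa using (MvPolynomial.isHomogeneous_C (Fin 2) R.leadingCoeff).mul
          ((MvPolynomial.isHomogeneous_X (MvPolynomial κ K) (1 : Fin 2)).pow d)
      · simp only [S, Finset.mul_sum]
        refine MvPolynomial.IsHomogeneous.sum _ _ _ fun i hi => ?_
        rw [Finset.mem_range] at hi
        have h1 := (MvPolynomial.isHomogeneous_X (MvPolynomial κ K) (0 : Fin 2)).mul
          (((MvPolynomial.isHomogeneous_C (Fin 2) (R.coeff i)).mul
          ((MvPolynomial.isHomogeneous_X (MvPolynomial κ K) (1 : Fin 2)).pow i)).mul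
          ((MvPolynomial.isHomogeneous_X (MvPolynomial κ K) (0 : Fin 2)).pow (d - 1 - i)))
        have h2 : 1 + (0 + 1 * i + 1 * (d - 1 - i)) = d := by omega
        rwa [h2] at h1
  have hρ : ∀ j, MvPolynomial.C (R.leadingCoeff ^ d) * MvPolynomial.X j ^ (d * d) ∈
      Ideal.span (Set.range P) := by
    have h0 : (MvPolynomial.X 0 ^ d : MvPolynomial (Fin 2) (MvPolynomial κ K)) ∈
        Ideal.span (Set.range P) := Ideal.subset_span ⟨0, rfl⟩
    have h1 : (MvPolynomial.C R.leadingCoeff * MvPolynomial.X 1 ^ d +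
      MvPolynomial.X 0 * S : MvPolynomial (Fin 2) (MvPolynomial κ K)) ∈
        Ideal.span (Set.range P) := Ideal.subset_span ⟨1, rfl⟩
    intro j
    fin_cases j
    · rcases Nat.eq_zero_or_pos d with h2 | h2
      · rw [h2] at h0 ⊢
        simpa using Ideal.mul_mem_left _ _ h0
      · obtain ⟨e, he⟩ : ∃ e, d * d = d + e := ⟨d * d - d, by
          have := Nat.le_mul_self d
          omega⟩
        simp only [Fin.zero_eta]
        rw [he, pow_add, ← mul_assoc]
        exact Ideal.mul_mem_right _ _ (Ideal.mul_mem_left _ _ h0)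
    · have h3 : (MvPolynomial.C R.leadingCoeff * MvPolynomial.X 1 ^ d) ^ d =
        ((MvPolynomial.C R.leadingCoeff * MvPolynomial.X 1 ^ d) ^ d -
          (-(MvPolynomial.X 0 * S)) ^ d) +
        (-S) ^ d * MvPolynomial.X 0 ^ d := by ring
      have h4 : MvPolynomial.C (R.leadingCoeff ^ d) * MvPolynomial.X 1 ^ (d * d) =
          (MvPolynomial.C R.leadingCoeff * MvPolynomial.X (1 : Fin 2) ^ d) ^ d := by
        rw [mul_pow, ← pow_mul, map_pow]
      simp only [Fin.mk_one]
      rw [h4, h3]
      refine add_mem ?_ (Ideal.mul_mem_left _ _ h0)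
      obtain ⟨w, hw⟩ := sub_dvd_pow_sub_pow
        (MvPolynomial.C R.leadingCoeff * MvPolynomial.X (1 : Fin 2) ^ d)
        (-(MvPolynomial.X 0 * S)) d
      rw [hw, sub_neg_eq_add]
      exact Ideal.mul_mem_right _ _ h1
  obtain ⟨C, E, hC, hE, h⟩ := fibre_height (K := K) d P hP (R.leadingCoeff ^ d) (d * d) hρ
  refine ⟨C, E, hC, hE, fun x y => ?_⟩
  have h1 := h x ![1, y]
  have e1 : (fun i => ev (P i) x ![1, y]) = ![1, val R x y] := by
    funext i
    fin_cases i
    · simp [P, ev]
    · have e2 : (R.map (MvPolynomial.eval x)).eval y = MvPolynomial.eval x R.leadingCoeff * y ^ d +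
          ∑ i ∈ Finset.range d, MvPolynomial.eval x (R.coeff i) * y ^ i := by
        rw [Polynomial.eval_map, Polynomial.eval₂_eq_sum_range, Finset.sum_range_succ, add_comm]
        rfl
      simp [P, ev, S, val, e2]
  rw [e1, logHeight_one_cons, logHeight_one_cons] at h1
  refine ⟨h1.1, fun hx => h1.2 ?_⟩
  rw [map_pow]
  exact pow_ne_zero _ hx

end line

section affine

theorem logHeight₁_le_affHeight {κ : Type*} [Finite κ] (z : κ → K) (i : κ) :
    logHeight₁ (z i) ≤ affHeight z := by
  rw [← logHeight_one_cons, affHeight]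
  have h1 : ![1, z i] = (fun o : Option κ => o.elim (1 : K) z) ∘ ![none, some i] := by
    funext j; fin_cases j <;> rfl
  rw [h1]
  exact logHeight_comp_le _ _

theorem affHeight_comp_le {κ κ' : Type*} [Finite κ] (z : κ → K) (g : κ' → κ) [Finite κ'] :
    affHeight (z ∘ g) ≤ affHeight z := by
  rw [affHeight, affHeight]
  have h1 : (fun o : Option κ' => o.elim (1 : K) (z ∘ g)) =
      (fun o : Option κ => o.elim (1 : K) z) ∘ Option.map g := by
    funext j; cases j <;> rfl
  rw [h1]
  exact logHeight_comp_le _ _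

theorem affHeight_le_add {N : ℕ} (z : Fin (N + 1) → K) :
    affHeight z ≤ affHeight (Fin.init z) + logHeight₁ (z (Fin.last N)) := by
  rw [← logHeight_one_cons, affHeight, affHeight, ← logHeight_fun_mul_eq]
  · have h1 : (fun o : Option (Fin (N + 1)) => o.elim (1 : K) z) =
        (fun a : Option (Fin N) × Fin 2 => (a.1.elim (1 : K) (Fin.init z)) *
          (![1, z (Fin.last N)] a.2)) ∘
        (fun o => o.elim (none, 0) (Fin.lastCases (none, 1) fun i => (some i, 0))) := by
      funext o
      cases o with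
      | none => simp
      | some i =>
        induction i using Fin.lastCases with
        | last => simp
        | cast i => simp [Fin.init]
    rw [h1]
    exact logHeight_comp_le _ _
  · intro h
    have := congrFun h none
    simp at this
  · intro h
    have := congrFun h 0
    simp at this

open Polynomial in
/-- One step of a triangular map: the arithmetic degree of `(x_n, y_n)` with
`y_(n+1) = R(x_n, y_n)`. -/
theorem line_step {N : ℕ} (R : (MvPolynomial (Fin N) K)[X]) (hd : 1 ≤ R.natDegree)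
    (z : ℕ → Fin (N + 1) → K)
    (hz : ∀ n, z (n + 1) (Fin.last N) = val R (Fin.init (z n)) (z n (Fin.last N)))
    (hlc : ∃ n₀, ∀ n ≥ n₀, MvPolynomial.eval (Fin.init (z n)) R.leadingCoeff ≠ 0) (α : ℝ)
    (hα : HasArithDeg (fun n => affHeight (Fin.init (z n))) α) :
    HasArithDeg (fun n => affHeight (z n)) α ∨
      HasArithDeg (fun n => affHeight (z n)) R.natDegree := by
  obtain ⟨C, E, hC, hE, h⟩ := line_height R
  obtain ⟨n₀, hn₀⟩ := hlc
  have hx0 : ∀ n, 0 ≤ affHeight (Fin.init (z n)) := fun n => affHeight_nonneg _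
  have hy0 : ∀ n, 0 ≤ logHeight₁ (z n (Fin.last N)) := fun n => zero_le_logHeight₁ _
  refine growth_limit (fun n => logHeight₁ (z n (Fin.last N)))
    (fun n => affHeight (Fin.init (z n))) _ R.natDegree (C + E) n₀
    (by exact_mod_cast hd) (by positivity) hy0 hx0 ?_ ?_ ?_ ?_ ?_ α hα
  · intro n _
    have h1 := (h (Fin.init (z n)) (z n (Fin.last N))).1
    have h2 := hx0 n
    rw [hz]
    nlinarith
  · intro n hn
    have h1 := (h (Fin.init (z n)) (z n (Fin.last N))).2 (hn₀ n hn)
    have h2 := hx0 n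
    rw [hz]
    nlinarith
  · intro n; exact logHeight₁_le_affHeight _ _
  · intro n; exact affHeight_comp_le (z n) Fin.castSucc
  · intro n
    have := affHeight_le_add (z n)
    have := hC
    have := hE
    linarith

open Polynomial in
/-- Q1 for triangular polynomial maps. -/
theorem triangular : ∀ (N : ℕ) (R : (i : Fin N) → (MvPolynomial (Fin i) K)[X])
    (_ : ∀ i, 1 ≤ (R i).natDegree) (z : ℕ → Fin N → K)
    (_ : ∀ n i, z (n + 1) i = val (R i) (fun j => z n (Fin.castLE i.is_lt.le j)) (z n i))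
    (_ : ∀ i, ∃ n₀, ∀ n ≥ n₀, MvPolynomial.eval (fun j => z n (Fin.castLE i.is_lt.le j))
      (R i).leadingCoeff ≠ 0),
    ∃ α : ℝ, HasArithDeg (fun n => affHeight (z n)) α ∧ (α = 1 ∨ ∃ i, α = (R i).natDegree) := by
  intro N
  induction N with
  | zero =>
    intro R _ z _ _
    refine ⟨1, ?_, Or.inl rfl⟩
    have h1 : ∀ n, affHeight (z n) = 0 := fun n => logHeight_eq_zero_of_subsingleton _
    simp only [HasArithDeg, h1, max_eq_right (zero_le_one (α := ℝ)), Real.one_rpow]
    exact tendsto_const_nhds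
  | succ N ih =>
    intro R hR z hz hlc
    obtain ⟨α, hα, hα'⟩ := ih (fun i => R i.castSucc) (fun i => hR _)
      (fun n => Fin.init (z n)) (fun n i => hz n i.castSucc) (fun i => hlc i.castSucc)
    rcases line_step (R (Fin.last N)) (hR _) z (fun n => hz n (Fin.last N)) (hlc (Fin.last N)) α hα
      with h | h
    · refine ⟨α, h, ?_⟩
      rcases hα' with h1 | ⟨i, hi⟩
      · exact Or.inl h1
      · exact Or.inr ⟨i.castSucc, hi⟩
    · exact ⟨_, h, Or.inr ⟨Fin.last N, rfl⟩⟩

end affine

end Pool.Agent.H85.HG
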