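import Pool.Agent.H85.HG.Gap
import Pool.Agent.H85.HG.Skew

/-!
Heights along quasi-polynomial orbits.
-/

set_option autoImplicit false

open Height Height.AdmissibleAbsValues NumberField MvPolynomial

namespace Pool.Agent.H85.HG

variable {K : Type*} [Field K] [NumberField K]

theorem logHeight₁_natCast_le (m : ℕ) :
    logHeight₁ (m : K) ≤ totalWeight K * Real.log (m + 1) := by
  rw [logHeight₁_eq_log_mulHeight₁, ← Real.log_pow]
  refine Real.log_le_log (mulHeight₁_pos _) ?_
  rw [Height.mulHeight₁_eq]
  have h1 : ((archAbsVal (K := K)).map fun v => max (v (m : K)) 1).prod ≤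
      ((m : ℝ) + 1) ^ totalWeight K := by
    calc ((archAbsVal (K := K)).map fun v => max (v (m : K)) 1).prod
        ≤ ((archAbsVal (K := K)).map fun _ => (m : ℝ) + 1).prod := by
          refine Multiset.prod_map_le_prod_map₀ _ _ (fun v _ => by positivity) fun v hv => ?_
          rw [arch_natCast hv]
          exact max_le (by linarith) (by
            have : (0 : ℝ) ≤ m := by positivity
            linarith)
      _ = _ := by simp [totalWeight]
  have h2 : ∏ᶠ v : nonarchAbsVal (K := K), max (v.val (m : K)) 1 = 1 := by
    refine (finprod_congr fun v => ?_).trans finprod_one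
    exact max_eq_right (nonarch_int_le v (isIntegral_natCast m))
  rw [h2, mul_one]
  exact h1

/-- Along a quasi-polynomial orbit the height is `O(log n)`. -/
theorem log_bound {σ : Type*} [Finite σ] (x : ℕ → σ → K) (n₀ b : ℕ) (hb : 0 < b)
    (P : ℕ → σ → Polynomial K) (hP : ∀ a m s, x (n₀ + a + b * m) s = (P a s).eval (m : K)) :
    ∃ C : ℝ, ∀ n, affHeight (x n) ≤ C * (1 + Real.log (n + 1)) := by
  classical
  have := Fintype.ofFinite σ
  let toM : Polynomial K → MvPolynomial (Fin 1) K := fun c =>
    Polynomial.aeval (X 0 : MvPolynomial (Fin 1) K) c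
  have htoM : ∀ c (z : Fin 1 → K), eval z (toM c) = c.eval (z 0) := by
    intro c z
    have h1 : ((eval z).comp
        (Polynomial.aeval (X 0 : MvPolynomial (Fin 1) K)).toRingHom : Polynomial K →+* K) =
        Polynomial.evalRingHom (z 0) := by
      ext a
      · simp
      · simp
    exact DFunLike.congr_fun h1 c
  choose C E hC hE h using fun a => logHeight_base (K := K) (κ := Fin 1)
    (fun o : Option σ => o.elim (1 : MvPolynomial (Fin 1) K) (fun s => toM (P a s)))
  set A : ℝ := ∑ n ∈ Finset.range n₀, affHeight (x n) +
    ∑ a ∈ Finset.range b, (C a + E a * totalWeight K) with hA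
  refine ⟨A, fun n => ?_⟩
  have hlog : 0 ≤ Real.log ((n : ℝ) + 1) := Real.log_nonneg (by
    have : (0 : ℝ) ≤ n := by positivity
    linarith)
  have hs1 : 0 ≤ ∑ n ∈ Finset.range n₀, affHeight (x n) :=
    Finset.sum_nonneg fun i _ => affHeight_nonneg _
  have hs2 : 0 ≤ ∑ a ∈ Finset.range b, (C a + E a * totalWeight K) :=
    Finset.sum_nonneg fun a _ => by
      have := hC a
      have := hE a
      positivity
  rcases lt_or_ge n n₀ with hn | hn
  · have h1 : affHeight (x n) ≤ ∑ n ∈ Finset.range n₀, affHeight (x n) :=
      Finset.single_le_sum (f := fun n => affHeight (x n)) (fun i _ => affHeight_nonneg _)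
        (Finset.mem_range.2 hn)
    have h2 : affHeight (x n) ≤ A := by linarith
    have h3 : 0 ≤ A := by linarith
    nlinarith
  · obtain ⟨r, rfl⟩ := Nat.exists_eq_add_of_le hn
    set a := r % b with ha
    set m := r / b with hm
    have hr : r = a + b * m := (Nat.mod_add_div r b).symm
    have h1 : affHeight (x (n₀ + r)) ≤ C a + E a * (totalWeight K * Real.log (m + 1)) := by
      have h2 := h a (fun _ => (m : K))
      have h3 : (fun i : Option σ => eval (fun _ : Fin 1 => (m : K))
          (i.elim (1 : MvPolynomial (Fin 1) K) (fun s => toM (P a s)))) =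
          fun o : Option σ => o.elim (1 : K) (x (n₀ + r)) := by
        funext o
        cases o with
        | none => simp
        | some s =>
          simp only [Option.elim_some]
          rw [htoM, hr, ← add_assoc, hP]
      rw [h3] at h2
      refine h2.trans ?_
      have h4 : affHeight (fun _ : Fin 1 => (m : K)) ≤ totalWeight K * Real.log (m + 1) := by
        have h5 := affHeight_le_add (fun _ : Fin 1 => (m : K))
        have h6 : affHeight (Fin.init (fun _ : Fin 1 => (m : K))) = 0 :=
          logHeight_eq_zero_of_subsingleton _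
        have h7 := logHeight₁_natCast_le (K := K) m
        linarith
      have := hE a
      gcongr
    have h2 : Real.log ((m : ℝ) + 1) ≤ Real.log (((n₀ + r : ℕ) : ℝ) + 1) := by
      refine Real.log_le_log (by positivity) ?_
      have : m ≤ n₀ + r := (Nat.div_le_self r b).trans (Nat.le_add_left _ _)
      have : (m : ℝ) ≤ ((n₀ + r : ℕ) : ℝ) := by exact_mod_cast this
      linarith
    set L := Real.log (((n₀ + r : ℕ) : ℝ) + 1) with hL
    have h3 : C a + E a * totalWeight K ≤ ∑ a ∈ Finset.range b, (C a + E a * totalWeight K) :=
      Finset.single_le_sum (f := fun a => C a + E a * (totalWeight K : ℝ)) (fun a _ => by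
        have := hC a
        have := hE a
        positivity) (Finset.mem_range.2 (Nat.mod_lt r hb))
    have h4 : C a + E a * (totalWeight K * Real.log (m + 1)) ≤
        (C a + E a * totalWeight K) * (1 + L) := by
      have h5 : 0 ≤ E a * totalWeight K := mul_nonneg (hE a) (by positivity)
      have h6 := hC a
      nlinarith [mul_le_mul_of_nonneg_left h2 h5, mul_nonneg h6 hlog]
    have h7 : (C a + E a * totalWeight K) * (1 + L) ≤ A * (1 + L) := by
      have : 0 ≤ 1 + L := by linarith
      have : C a + E a * totalWeight K ≤ A := by linarith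
      gcongr
    linarith

end Pool.Agent.H85.HG
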