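import Pool.Agent.H85.HG.Skew

/-!
Arithmetic degrees of all polynomial skew products of the plane.
-/

set_option autoImplicit false

open Height Height.AdmissibleAbsValues Polynomial Filter Topology

namespace Pool.Agent.H85.HG

variable {K : Type*} [Field K] [AdmissibleAbsValues K]

theorem affHeight_subsingleton {κ : Type*} [IsEmpty κ] (z : κ → K) : affHeight z = 0 :=
  logHeight_eq_zero_of_subsingleton _

/-- Height of the values of a polynomial in one variable. -/
theorem single_height (F : K[X]) : ∃ C : ℝ, 0 ≤ C ∧ ∀ y : K,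
    logHeight₁ (F.eval y) ≤ F.natDegree * logHeight₁ y + C ∧
      F.natDegree * logHeight₁ y ≤ logHeight₁ (F.eval y) + C := by
  obtain ⟨C, E, hC, hE, h⟩ := line_height (κ := Fin 0) (F.map MvPolynomial.C)
  have hinj : Function.Injective (MvPolynomial.C : K →+* MvPolynomial (Fin 0) K) :=
    MvPolynomial.C_injective _ _
  have hdeg : (F.map (MvPolynomial.C : K →+* MvPolynomial (Fin 0) K)).natDegree = F.natDegree :=
    natDegree_map_eq_of_injective hinj _
  refine ⟨C, hC, fun y => ?_⟩
  have h1 := h Fin.elim0 y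
  have h2 : val (F.map (MvPolynomial.C : K →+* MvPolynomial (Fin 0) K)) Fin.elim0 y = F.eval y := by
    rw [val, Polynomial.map_map]
    congr 1
    have : (MvPolynomial.eval Fin.elim0).comp (MvPolynomial.C : K →+* MvPolynomial (Fin 0) K) =
        RingHom.id K := by ext a; simp
    rw [this, Polynomial.map_id]
  rw [h2, hdeg, affHeight_subsingleton, mul_zero, add_zero, leadingCoeff_map_of_injective hinj,
    MvPolynomial.eval_C] at h1
  refine ⟨by linarith [h1.1], ?_⟩
  by_cases h3 : F.leadingCoeff = 0
  · rw [leadingCoeff_eq_zero] at h3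
    subst h3
    simp only [natDegree_zero, CharP.cast_eq_zero, zero_mul]
    have := zero_le_logHeight₁ (eval y (0 : K[X]))
    linarith
  · linarith [h1.2 h3]

/-- Orbits over an eventually periodic base orbit. -/
theorem periodic_base (R : K[X][X]) (x y : ℕ → K)
    (hy : ∀ n, y (n + 1) = (R.map (evalRingHom (x n))).eval (y n)) (n₀ p : ℕ) (hp : 0 < p)
    (hx : ∀ n ≥ n₀, x (n + p) = x n) :
    ∃ α : ℝ, HasArithDeg (fun n => affHeight ![x n, y n]) α := by
  classical
  choose C hC0 hC using fun F : K[X] => single_height F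
  have hmod : ∀ n, ∃ m < n₀ + p, x n = x m := by
    intro n
    induction n using Nat.strong_induction_on with
    | _ n ih =>
      by_cases hn : n < n₀ + p
      · exact ⟨n, hn, rfl⟩
      · obtain ⟨m, hm, h⟩ := ih (n - p) (by omega)
        refine ⟨m, hm, ?_⟩
        rw [← h, ← hx (n - p) (by omega)]
        congr 1
        omega
  set A : ℝ := ∑ m ∈ Finset.range (n₀ + p), C (R.map (evalRingHom (x m))) with hA
  set B : ℝ := ∑ m ∈ Finset.range (n₀ + p), logHeight₁ (x m) with hB
  have hA1 : ∀ n, C (R.map (evalRingHom (x n))) ≤ A := by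
    intro n
    obtain ⟨m, hm, h⟩ := hmod n
    rw [h]
    exact Finset.single_le_sum (f := fun m => C (R.map (evalRingHom (x m))))
      (fun i _ => hC0 _) (Finset.mem_range.2 hm)
  have hB1 : ∀ n, logHeight₁ (x n) ≤ B := by
    intro n
    obtain ⟨m, hm, h⟩ := hmod n
    rw [h]
    exact Finset.single_le_sum (f := fun m => logHeight₁ (x m))
      (fun i _ => zero_le_logHeight₁ _) (Finset.mem_range.2 hm)
  have hA0 : 0 ≤ A := Finset.sum_nonneg fun i _ => hC0 _
  have hB0 : 0 ≤ B := Finset.sum_nonneg fun i _ => zero_le_logHeight₁ _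
  refine growth_periodic (fun n => logHeight₁ (y n)) _
    (fun n => (R.map (evalRingHom (x n))).natDegree) p n₀ (A + B) hp (by positivity) ?_ ?_ ?_ ?_ ?_ ?_
  · intro n hn
    simp only [hx n hn]
  · intro n; exact zero_le_logHeight₁ _
  · intro n _
    have h1 := (hC (R.map (evalRingHom (x n))) (y n)).1
    have h2 := hA1 n
    rw [hy]
    linarith
  · intro n _
    have h1 := (hC (R.map (evalRingHom (x n))) (y n)).2
    have h2 := hA1 n
    rw [hy]
    linarith
  · intro n
    exact logHeight₁_le_affHeight ![x n, y n] 1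
  · intro n
    have h1 := affHeight_le_add ![x n, y n]
    have h2 := affHeight_le_add (Fin.init ![x n, y n])
    have h3 : affHeight (Fin.init (Fin.init ![x n, y n])) = 0 := affHeight_subsingleton _
    have h4 : Fin.init ![x n, y n] (Fin.last 0) = x n := rfl
    have h5 : ![x n, y n] (Fin.last 1) = y n := rfl
    rw [h3, h4] at h2
    rw [h5] at h1
    have := hB1 n
    linarith

/-- The coefficients of `R` as polynomials in the variables indexed by `Fin 1`. -/
noncomputable def toMv : K[X] →+* MvPolynomial (Fin 1) K :=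
  (Polynomial.aeval (MvPolynomial.X 0 : MvPolynomial (Fin 1) K)).toRingHom

omit [AdmissibleAbsValues K] in
theorem eval_toMv (c : K[X]) (z : Fin 1 → K) : MvPolynomial.eval z (toMv c) = c.eval (z 0) := by
  have h1 : (MvPolynomial.eval z).comp (toMv (K := K)) = evalRingHom (z 0) := by
    ext a
    · simp [toMv]
    · simp [toMv]
  exact DFunLike.congr_fun h1 c

omit [AdmissibleAbsValues K] in
theorem toMv_injective : Function.Injective (toMv (K := K)) := by
  have h1 : (MvPolynomial.aeval (fun _ : Fin 1 => (X : K[X]))).toRingHom.comp (toMv (K := K)) =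
      RingHom.id _ := by
    ext a
    · simp [toMv]
    · simp [toMv]
  intro a b hab
  have h2 := congrArg (MvPolynomial.aeval (fun _ : Fin 1 => (X : K[X]))) hab
  have h3 : ∀ c, MvPolynomial.aeval (fun _ : Fin 1 => (X : K[X])) (toMv c) = c :=
    fun c => DFunLike.congr_fun h1 c
  rwa [h3, h3] at h2

omit [Field K] [AdmissibleAbsValues K] in
theorem init_pair (a b : K) : (Fin.init ![a, b] : Fin 1 → K) = ![a] := by
  funext i; fin_cases i; rfl

omit [AdmissibleAbsValues K] in
theorem val_toMv (R : K[X][X]) (z : Fin 1 → K) (w : K) :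
    val (R.map toMv) z w = (R.map (evalRingHom (z 0))).eval w := by
  rw [val, Polynomial.map_map]
  congr 2
  ext c
  · simp [eval_toMv]
  · simp [eval_toMv]

omit [AdmissibleAbsValues K] in
theorem val_C (g : K[X]) (z : Fin 0 → K) (w : K) :
    val (g.map (MvPolynomial.C : K →+* MvPolynomial (Fin 0) K)) z w = g.eval w := by
  rw [val, Polynomial.map_map]
  congr 1
  have : (MvPolynomial.eval z).comp (MvPolynomial.C : K →+* MvPolynomial (Fin 0) K) =
      RingHom.id K := by ext a; simp
  rw [this, Polynomial.map_id]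

/-- The base orbit. -/
theorem base_line (g : K[X]) (hg : g.natDegree ≠ 0) (x : ℕ → K)
    (hx : ∀ n, x (n + 1) = g.eval (x n)) :
    ∃ α : ℝ, HasArithDeg (fun n => affHeight ![x n]) α := by
  have hinj : Function.Injective (MvPolynomial.C : K →+* MvPolynomial (Fin 0) K) :=
    MvPolynomial.C_injective _ _
  have hdeg : (g.map (MvPolynomial.C : K →+* MvPolynomial (Fin 0) K)).natDegree =
    g.natDegree := natDegree_map_eq_of_injective hinj _
  have hg0 : g.leadingCoeff ≠ 0 := by
    rw [Ne, leadingCoeff_eq_zero]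
    rintro rfl
    simp at hg
  let z : ℕ → Fin 1 → K := fun n => ![x n]
  have h0 : HasArithDeg (fun n => affHeight (Fin.init (z n))) 1 := by
    have h1 : ∀ n, affHeight (Fin.init (z n)) = 0 := fun n => affHeight_subsingleton _
    simp only [HasArithDeg, h1, max_eq_right (zero_le_one (α := ℝ)), Real.one_rpow]
    exact tendsto_const_nhds
  have hz : ∀ n, z (n + 1) (Fin.last 0) = val (g.map MvPolynomial.C) (Fin.init (z n))
      (z n (Fin.last 0)) := fun n => by
    rw [val_C]
    exact hx n
  have hlc : ∃ n₀, ∀ n ≥ n₀, MvPolynomial.eval (Fin.init (z n))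
      (g.map (MvPolynomial.C : K →+* MvPolynomial (Fin 0) K)).leadingCoeff ≠ 0 :=
    ⟨0, fun n _ => by
      rw [leadingCoeff_map_of_injective hinj, MvPolynomial.eval_C]; exact hg0⟩
  rcases line_step (N := 0) (g.map MvPolynomial.C) (by omega) z hz hlc 1 h0 with h | h
  · exact ⟨_, h⟩
  · exact ⟨_, h⟩

/-- The generic case. -/
theorem generic_base (R : K[X][X]) (hR : 1 ≤ R.natDegree) (x y : ℕ → K)
    (hy : ∀ n, y (n + 1) = (R.map (evalRingHom (x n))).eval (y n))
    (hlc : ∃ n₀, ∀ n ≥ n₀, R.leadingCoeff.eval (x n) ≠ 0) (α : ℝ)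
    (hα : HasArithDeg (fun n => affHeight ![x n]) α) :
    HasArithDeg (fun n => affHeight ![x n, y n]) α ∨
      HasArithDeg (fun n => affHeight ![x n, y n]) R.natDegree := by
  obtain ⟨n₀, hn₀⟩ := hlc
  have hdeg : (R.map (toMv (K := K))).natDegree = R.natDegree :=
    natDegree_map_eq_of_injective toMv_injective _
  let z : ℕ → Fin 2 → K := fun n => ![x n, y n]
  have hinit : ∀ n, Fin.init (z n) = ![x n] := fun n => init_pair _ _
  have hz : ∀ n, z (n + 1) (Fin.last 1) = val (R.map toMv) (Fin.init (z n))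
      (z n (Fin.last 1)) := fun n => by
    rw [val_toMv, hinit]
    exact hy n
  have hlc' : ∃ n₀, ∀ n ≥ n₀, MvPolynomial.eval (Fin.init (z n))
      (R.map (toMv (K := K))).leadingCoeff ≠ 0 :=
    ⟨n₀, fun n hn => by
      rw [leadingCoeff_map_of_injective toMv_injective, eval_toMv, hinit]
      exact hn₀ n hn⟩
  have hα' : HasArithDeg (fun n => affHeight (Fin.init (z n))) α := by
    simp only [hinit]
    exact hα
  have := line_step (N := 1) (R.map toMv) (by omega) z hz hlc' α hα'
  rwa [hdeg] at this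

/-- Q1 FOR ALL POLYNOMIAL SKEW PRODUCTS OF THE PLANE: the arithmetic degree of every orbit of
`(x, y) ↦ (g(x), R(x, y))`, `deg_y R ≥ 1`, exists. -/
theorem plane (g : K[X]) (R : K[X][X]) (hR : 1 ≤ R.natDegree) (x y : ℕ → K)
    (hx : ∀ n, x (n + 1) = g.eval (x n))
    (hy : ∀ n, y (n + 1) = (R.map (evalRingHom (x n))).eval (y n)) :
    ∃ α : ℝ, HasArithDeg (fun n => affHeight ![x n, y n]) α := by
  classical
  have hshift : ∀ i j : ℕ, x i = x j → ∀ l, x (i + l) = x (j + l) := by
    intro i j h l
    induction l with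
    | zero => exact h
    | succ l ih => rw [← add_assoc, ← add_assoc, hx, hx, ih]
  have hper : ∀ i j : ℕ, i < j → x i = x j →
      ∃ α : ℝ, HasArithDeg (fun n => affHeight ![x n, y n]) α := by
    intro i j hij h
    refine periodic_base R x y hy i (j - i) (by omega) fun n hn => ?_
    obtain ⟨l, rfl⟩ := Nat.exists_eq_add_of_le hn
    rw [hshift i j h l]
    congr 1
    omega
  by_cases hg : g.natDegree = 0
  · obtain ⟨c, rfl⟩ := natDegree_eq_zero.1 hg
    exact hper 1 2 (by omega) (by rw [hx 0, hx 1, eval_C, eval_C])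
  by_cases hlc : ∃ n₀, ∀ n ≥ n₀, R.leadingCoeff.eval (x n) ≠ 0
  · obtain ⟨α, hα⟩ := base_line g hg x hx
    rcases generic_base R hR x y hy hlc α hα with h | h
    · exact ⟨_, h⟩
    · exact ⟨_, h⟩
  · push Not at hlc
    -- infinitely many `n` with `x n` a root of the leading coefficient
    have hR0 : R.leadingCoeff ≠ 0 := by
      rw [Ne, leadingCoeff_eq_zero]
      rintro rfl
      simp at hR
    choose φ hφ1 hφ2 using hlc
    let ψ : ℕ → ℕ := fun n => Nat.rec (φ 0) (fun _ m => φ (m + 1)) n
    have hψ : StrictMono ψ := strictMono_nat_of_lt_succ fun n => by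
      have := hφ1 (ψ n + 1)
      change ψ n < φ (ψ n + 1)
      omega
    have hroot' : ∀ n, R.leadingCoeff.eval (x (ψ n)) = 0 := by
      intro n
      cases n with
      | zero => exact hφ2 0
      | succ n => exact hφ2 (ψ n + 1)
    have hroot : ∀ n, x (ψ n) ∈ R.leadingCoeff.rootSet K := by
      intro n
      rw [mem_rootSet']
      refine ⟨by simpa using hR0, ?_⟩
      rw [coe_aeval_eq_eval]
      exact hroot' n
    obtain ⟨i, j, hij, h⟩ := Finite.exists_ne_map_eq_of_infinite
      (fun n => (⟨x (ψ n), hroot n⟩ : R.leadingCoeff.rootSet K))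
    have h' : x (ψ i) = x (ψ j) := congrArg Subtype.val h
    rcases lt_or_gt_of_ne hij with h1 | h1
    · exact hper _ _ (hψ h1) h'
    · exact hper _ _ (hψ h1) h'.symm

end Pool.Agent.H85.HG
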