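import Pool.Agent.H85.HG.Plane

/-!
Arithmetic degrees of triangular polynomial maps.
-/

set_option autoImplicit false

open Height Height.AdmissibleAbsValues Polynomial Filter Topology

namespace Pool.Agent.H85.HG

variable {K : Type*} [Field K] [AdmissibleAbsValues K]

omit [AdmissibleAbsValues K] in
theorem eval_ne_zero_of_isEmpty {κ : Type*} [IsEmpty κ] (p : MvPolynomial κ K) (hp : p ≠ 0)
    (z : κ → K) : MvPolynomial.eval z p ≠ 0 := by
  rw [MvPolynomial.eq_C_of_isEmpty p] at hp ⊢
  rw [MvPolynomial.eval_C]
  intro h
  exact hp (by rw [h, map_zero])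

/-- Polynomials in the variables indexed by `Fin 1` as polynomials in one variable. -/
noncomputable def ofMv : MvPolynomial (Fin 1) K →+* K[X] :=
  (MvPolynomial.aeval (fun _ : Fin 1 => (X : K[X]))).toRingHom

omit [AdmissibleAbsValues K] in
theorem eval_ofMv (c : MvPolynomial (Fin 1) K) (a : K) :
    (ofMv c).eval a = MvPolynomial.eval (fun _ => a) c := by
  have h1 : (evalRingHom a).comp (ofMv (K := K)) = MvPolynomial.eval (fun _ => a) := by
    ext i
    · simp [ofMv]
    · simp [ofMv]
  exact DFunLike.congr_fun h1 c

omit [AdmissibleAbsValues K] in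
theorem ofMv_injective : Function.Injective (ofMv (K := K)) := by
  have h1 : (toMv (K := K)).comp (ofMv (K := K)) = RingHom.id _ := by
    ext i
    · simp [toMv, ofMv]
    · simp [toMv, ofMv, Subsingleton.elim i 0]
  intro a b hab
  have h2 := congrArg (toMv (K := K)) hab
  have h3 : ∀ c, toMv (ofMv (K := K) c) = c := fun c => DFunLike.congr_fun h1 c
  rwa [h3, h3] at h2

theorem tri : ∀ (N : ℕ) (R : (i : Fin N) → (MvPolynomial (Fin i) K)[X])
    (_ : ∀ i, 1 ≤ (R i).natDegree) (z : ℕ → Fin N → K)
    (_ : ∀ n i, z (n + 1) i = val (R i) (fun j => z n (Fin.castLE i.is_lt.le j)) (z n i))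
    (_ : ∀ i : Fin N, 2 ≤ (i : ℕ) → ∃ n₀, ∀ n ≥ n₀,
      MvPolynomial.eval (fun j => z n (Fin.castLE i.is_lt.le j)) (R i).leadingCoeff ≠ 0),
    ∃ α : ℝ, HasArithDeg (fun n => affHeight (z n)) α := by
  intro N
  induction N with
  | zero =>
    intro R _ z _ _
    obtain ⟨α, h, -⟩ := triangular 0 R (fun i => i.elim0) z (fun _ i => i.elim0) (fun i => i.elim0)
    exact ⟨α, h⟩
  | succ N ih =>
    intro R hR z hz hlc
    have hR0 : ∀ i, (R i).leadingCoeff ≠ 0 := by
      intro i h
      rw [leadingCoeff_eq_zero] at h
      have := hR i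
      rw [h] at this
      simp at this
    rcases N with _ | _ | N
    · -- one variable
      obtain ⟨α, h, -⟩ := triangular 1 R hR z hz (fun i => ⟨0, fun n _ => by
        have : IsEmpty (Fin (i : ℕ)) := by
          have : (i : ℕ) = 0 := by omega
          rw [this]
          infer_instance
        exact eval_ne_zero_of_isEmpty _ (hR0 i) _⟩)
      exact ⟨α, h⟩
    · -- the plane
      obtain ⟨α, h⟩ := plane ((R 0).map (MvPolynomial.eval fun j => (Fin.elim0 j : K)))
        ((R 1).map (ofMv (K := K))) (by
          rw [natDegree_map_eq_of_injective ofMv_injective]; exact hR 1)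
        (fun n => z n 0) (fun n => z n 1) (fun n => by
          have h1 := hz n 0
          rw [val] at h1
          rw [h1]
          congr 3
          funext j
          exact Fin.elim0 j) (fun n => by
          have h1 := hz n 1
          rw [val] at h1
          rw [h1, Polynomial.map_map]
          congr 2
          ext i
          · simp [eval_ofMv]
          · simp only [RingHom.coe_comp, Function.comp_apply, coe_evalRingHom,
              MvPolynomial.eval_X]
            have h4 := eval_ofMv (K := K) (MvPolynomial.X i) (z n 0)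
            rw [MvPolynomial.eval_X] at h4
            refine Eq.trans ?_ h4.symm
            congr 1
            apply Fin.ext
            have : (i : ℕ) < 1 := i.is_lt
            simp)
      refine ⟨α, ?_⟩
      have h2 : ∀ n, z n = ![z n 0, z n 1] := fun n => by
        funext i; fin_cases i <;> rfl
      have h3 : (fun n => affHeight (z n)) = fun n => affHeight ![z n 0, z n 1] := by
        funext n
        rw [← h2]
      rw [h3]
      exact h
    · obtain ⟨α, hα⟩ := ih (fun i => R i.castSucc) (fun i => hR _)
        (fun n => Fin.init (z n)) (fun n i => hz n i.castSucc) (fun i hi => hlc i.castSucc hi)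
      rcases line_step (R (Fin.last (N + 2))) (hR _) z (fun n => hz n (Fin.last (N + 2)))
        (hlc (Fin.last (N + 2)) (by simp)) α hα with h | h
      · exact ⟨_, h⟩
      · exact ⟨_, h⟩

end Pool.Agent.H85.HG
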